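import Pool.Agent.H109R3.TC.Stmt

/-!
Finite spaces are computably categorical.
-/

namespace Pool.Agent.H109R3.LA

open Pool.Agent.Helper583.TT (CMS IsName pre)
open Pool.Agent.H109R3.TC (CompMapIn CatBoth)

/-- table look-up with a decidable approximate equality -/
def look (q : ℕ × ℕ × ℕ → ℕ) (k : ℕ) : List (ℕ × ℕ) → ℕ → ℕ
  | [], _ => 0
  | (r, s) :: L, i => if q (i, r, k) ≤ 1 then s else look q k L i

theorem comp_look {q : ℕ × ℕ × ℕ → ℕ} (hq : Computable q) (k : ℕ) (L : List (ℕ × ℕ)) :
    Computable (look q k L) := by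
  induction L with
  | nil => exact Computable.const 0
  | cons p L ih =>
    obtain ⟨r, s⟩ := p
    have h1 : Computable fun i : ℕ => decide (q (i, r, k) ≤ 1) := by
      have h2 : Computable₂ fun a b : ℕ => decide (a ≤ b) := Primrec.nat_le.decide.to_comp
      exact h2.comp (hq.comp (Computable.id.pair ((Computable.const r).pair
        (Computable.const k)))) (Computable.const 1)
    refine (Computable.cond h1 (Computable.const s) ih).of_eq fun i => ?_
    by_cases h : q (i, r, k) ≤ 1 <;> simp [look, h]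

theorem look_mem {q : ℕ × ℕ × ℕ → ℕ} {k : ℕ} {L : List (ℕ × ℕ)} {i : ℕ}
    (h : ∃ p ∈ L, q (i, p.1, k) ≤ 1) : ∃ p ∈ L, q (i, p.1, k) ≤ 1 ∧ look q k L i = p.2 := by
  induction L with
  | nil => simp at h
  | cons p L ih =>
    obtain ⟨r, s⟩ := p
    by_cases h1 : q (i, r, k) ≤ 1
    · exact ⟨(r, s), List.mem_cons_self, h1, by simp [look, h1]⟩
    · obtain ⟨p, hp, hp2⟩ := h
      rcases List.mem_cons.1 hp with rfl | hp
      · exact absurd hp2 h1
      · obtain ⟨p', h3, h4, h5⟩ := ih ⟨p, hp, hp2⟩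
        exact ⟨p', List.mem_cons_of_mem _ h3, h4, by simp [look, h1, h5]⟩

/-- every map from a finite space is computable -/
theorem compMapIn_of_finite {a : ℕ → ℕ} {M N : CMS} [Finite M.Y] (h : M.Y → N.Y)
    (hN : ∀ y, ∃ j, N.c j = h y) : CompMapIn a M N h := by
  classical
  have := Fintype.ofFinite M.Y
  -- separation
  obtain ⟨k, hk⟩ : ∃ k : ℕ, ∀ x y : M.Y, x ≠ y → 4 / 2 ^ k < dist x y := by
    have h1 : ∀ p : M.Y × M.Y, ∃ k : ℕ, p.1 ≠ p.2 → 4 / 2 ^ k < dist p.1 p.2 := by
      intro p
      by_cases hp : p.1 = p.2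
      · exact ⟨0, fun h => absurd hp h⟩
      · have h2 := dist_pos.2 hp
        obtain ⟨k, hk⟩ := exists_pow_lt_of_lt_one (show (0:ℝ) < dist p.1 p.2 / 4 by positivity)
          (show (1 / 2 : ℝ) < 1 by norm_num)
        rw [one_div_pow] at hk
        refine ⟨k, fun _ => ?_⟩
        have : (4:ℝ) / 2 ^ k = 4 * (1 / 2 ^ k) := by ring
        linarith
    choose f hf using h1
    refine ⟨Finset.univ.sup f, fun x y hxy => ?_⟩
    refine lt_of_le_of_lt ?_ (hf (x, y) hxy)
    apply div_le_div_of_nonneg_left (by norm_num) (by positivity)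
    exact pow_le_pow_right₀ (by norm_num) (Finset.le_sup (Finset.mem_univ (x, y)))
  -- representatives
  have hM : ∀ y : M.Y, ∃ i, M.c i = y := by
    intro y
    obtain ⟨i, hi⟩ := M.dense.exists_dist_lt y (show (0:ℝ) < 4 / 2 ^ k by positivity)
    refine ⟨i, ?_⟩
    by_contra hne
    have h2 := hk (M.c i) y hne
    rw [dist_comm] at h2
    linarith
  choose r hr using hM
  choose s hs using hN
  obtain ⟨q, hq, hq2⟩ := M.comp
  let L : List (ℕ × ℕ) := (Finset.univ : Finset M.Y).toList.map fun y => (r y, s y)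
  have hlook : ∀ i, N.c (look q k L i) = h (M.c i) := by
    intro i
    have h1 : ∃ p ∈ L, q (i, p.1, k) ≤ 1 := by
      refine ⟨(r (M.c i), s (M.c i)), List.mem_map.2 ⟨M.c i, by simp, rfl⟩, ?_⟩
      have h2 := hq2 i (r (M.c i)) k
      rw [hr, dist_self, zero_sub, abs_neg, abs_of_nonneg (by positivity)] at h2
      rw [div_le_div_iff_of_pos_right (by positivity)] at h2
      exact_mod_cast h2
    obtain ⟨p, hp, hp2, hp3⟩ := look_mem h1
    obtain ⟨y, -, hy⟩ := List.mem_map.1 hp
    have h4 : M.c i = y := by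
      by_contra hne
      have h5 := hk (M.c i) y hne
      have h6 := hq2 i (r y) k
      rw [hr] at h6
      have h7 : q (i, r y, k) ≤ 1 := by rw [← hy] at hp2; exact hp2
      have h8 : (q (i, r y, k) : ℝ) / 2 ^ k ≤ 1 / 2 ^ k := by
        rw [div_le_div_iff_of_pos_right (by positivity)]
        exact_mod_cast h7
      have h9 := (abs_le.1 h6).2
      have h10 : (4:ℝ) / 2 ^ k = 4 * (1 / 2 ^ k) := by ring
      have h11 : (0:ℝ) < 1 / 2 ^ k := by positivity
      linarith
    rw [hp3, ← hy, h4]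
    exact hs y
  let φ : List ℕ × ℕ → Option ℕ := fun x => (x.1[k]?).map (look q k L)
  have hφ : Computable φ := by
    refine Computable.option_map (α := List ℕ × ℕ) ?_ ?_
    · exact (Primrec.list_getElem?.comp Primrec.fst (Primrec.const k)).to_comp
    · exact (comp_look hq k L).comp Computable.snd
  refine ⟨fun x => (φ x : Part ℕ), hφ.ofOption.recursiveIn, fun x p hp => ?_⟩
  have hx : M.c (p k) = x := by
    by_contra hne
    have h2 := hk _ x hne
    have h3 := hp k
    have h10 : (4:ℝ) / 2 ^ k = 4 * (1 / 2 ^ k) := by ring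
    have h11 : (0:ℝ) < 1 / 2 ^ k := by positivity
    linarith
  refine ⟨fun _ => look q k L (p k), fun n => ?_, fun n => ⟨⟨k + 1, ?_⟩, fun j m hm => ?_⟩⟩
  · rw [hlook, hx, dist_self]
    positivity
  · have h1 : φ (pre p (k + 1), n) = some (look q k L (p k)) := by
      simp [φ, pre]
    show look q k L (p k) ∈ (φ (pre p (k + 1), n) : Part ℕ)
    rw [h1]
    exact Part.mem_some _
  · have h2 : m ∈ ((φ (pre p j, n) : Option ℕ) : Part ℕ) := hm
    rw [Part.mem_ofOption, Option.mem_def] at h2
    simp only [φ, pre, Option.map_eq_some_iff] at h2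
    obtain ⟨v, hv, hv2⟩ := h2
    by_cases hj : k < j
    · rw [List.getElem?_map, List.getElem?_range hj] at hv
      simp only [Option.map_some, Option.some.injEq] at hv
      rw [← hv2, ← hv]
    · rw [List.getElem?_map, List.getElem?_eq_none (by simpa using hj)] at hv
      simp at hv

theorem exists_index (N : CMS) [Finite N.Y] (y : N.Y) : ∃ j, N.c j = y := by
  have h1 : IsOpen ({y} : Set N.Y) := by
    have : DiscreteTopology N.Y := inferInstance
    exact isOpen_discrete _
  obtain ⟨j, hj⟩ := N.dense.exists_mem_open h1 ⟨y, rfl⟩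
  exact ⟨j, hj⟩

/-- finite spaces are categorical for every oracle -/
theorem catBoth_of_finite (X : Type) [TopologicalSpace X] [Finite X] (a : ℕ → ℕ) :
    CatBoth X a := by
  rintro M N ⟨i⟩ ⟨j⟩
  have : Finite M.Y := Finite.of_equiv X i.symm.toEquiv
  have : Finite N.Y := Finite.of_equiv X j.symm.toEquiv
  exact ⟨i.trans j.symm, compMapIn_of_finite _ fun y => exists_index N _,
    compMapIn_of_finite _ fun y => exists_index M _⟩

end Pool.Agent.H109R3.LA
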