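import Pool.Agent.H109R3.LA.Inj
import Pool.Agent.H938R3.TC.Defs

/-!
A noncomputable c.e. set with true stages for all computable families of processes.
-/

namespace Pool.Agent.H109R3.LA

open Nat.Partrec (Code)
open Nat.Partrec.Code (evaln)
open Pool.Agent.H938R3.TC

/-- the restriction of the set enumerated in `H` to length `k` -/
def res (H : List ℕ) (k : ℕ) : List Bool := (List.range k).map fun n => memb H n

/-- the program `c` converges in `t` steps on `(e, L)` -/
def cvg (t c e : ℕ) (L : List (List Bool)) : Bool :=
  (evaln t (Denumerable.ofNat Code c) (Encodable.encode (e, L))).isSome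

/-- the program `c` accepts `(e, L)` in `t` steps -/
def acc (t c e : ℕ) (L : List (List Bool)) : Bool :=
  decide (evaln t (Denumerable.ofNat Code c) (Encodable.encode (e, L)) = some 1)

def trStep (c x : ℕ) (H : List ℕ) (L : List (List Bool)) : List (List Bool) :=
  if (List.range (L.length + 1)).all
    (fun e => cvg (H.length + 1) c e (res (x :: H) L.length :: L)) = true then
    res (x :: H) L.length :: L else L

/-- the approximations chosen for the program `c` -/
def tr (c : ℕ) : List ℕ → List (List Bool)
  | [] => []
  | x :: H => trStep c x H (tr c H)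

/-- the universal family of processes -/
def UV (p : ℕ) (H : List ℕ) : Bool :=
  decide ((tr p.unpair.1 H).length = (tr p.unpair.1 H.tail).length + 1) &&
    acc H.length p.unpair.1 p.unpair.2 (tr p.unpair.1 H)

theorem UV_iff {c e : ℕ} {H : List ℕ} : UV (Nat.pair c e) H = true ↔
    (tr c H).length = (tr c H.tail).length + 1 ∧ acc H.length c e (tr c H) = true := by
  unfold UV
  simp only [Nat.unpair_pair, Bool.and_eq_true, decide_eq_true_iff]

theorem primrec_res {α : Type} [Primcodable α] {H : α → List ℕ} {k : α → ℕ} (hH : Primrec H)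
    (hk : Primrec k) : Primrec fun a => res (H a) (k a) := by
  unfold res
  exact Primrec.list_map (Primrec.list_range.comp hk)
    (primrec_memb.comp (hH.comp Primrec.fst) Primrec.snd)

theorem primrec_evn {α : Type} [Primcodable α] {t c e : α → ℕ} {L : α → List (List Bool)}
    (ht : Primrec t) (hc : Primrec c) (he : Primrec e) (hL : Primrec L) :
    Primrec fun a => evaln (t a) (Denumerable.ofNat Code (c a))
      (Encodable.encode (e a, L a)) :=
  Nat.Partrec.Code.primrec_evaln.comp ((ht.pair ((Primrec.ofNat Code).comp hc)).pair
    (Primrec.encode.comp (he.pair hL)))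

theorem primrec_trStep {α : Type} [Primcodable α] {c x : α → ℕ} {H : α → List ℕ}
    {L : α → List (List Bool)} (hc : Primrec c) (hx : Primrec x) (hH : Primrec H)
    (hL : Primrec L) : Primrec fun a => trStep (c a) (x a) (H a) (L a) := by
  unfold trStep
  have hlen : Primrec fun a => (L a).length := Primrec.list_length.comp hL
  have hnew : Primrec fun a => res (x a :: H a) (L a).length :: L a :=
    Primrec.list_cons.comp (primrec_res (Primrec.list_cons.comp hx hH) hlen) hL
  refine Primrec.ite ?_ hnew hL
  have hR : PrimrecRel fun (e : ℕ) (q : ℕ × ℕ × List (List Bool)) =>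
      cvg q.1 q.2.1 e q.2.2 = true := by
    have h1 : Primrec fun p : ℕ × ℕ × ℕ × List (List Bool) => cvg p.2.1 p.2.2.1 p.1 p.2.2.2 := by
      unfold cvg
      refine Primrec.option_isSome.comp (primrec_evn ?_ ?_ Primrec.fst ?_)
      · exact Primrec.fst.comp Primrec.snd
      · exact Primrec.fst.comp (Primrec.snd.comp Primrec.snd)
      · exact Primrec.snd.comp (Primrec.snd.comp Primrec.snd)
    exact Primrec.eq.comp h1 (Primrec.const true)
  have h2 : PrimrecRel fun (l : List ℕ) (q : ℕ × ℕ × List (List Bool)) => ∀ e ∈ l,
      cvg q.1 q.2.1 e q.2.2 = true := hR.forall_mem_list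
  have h3 : PrimrecPred fun a => ∀ e ∈ List.range ((L a).length + 1),
      cvg ((H a).length + 1) (c a) e (res (x a :: H a) (L a).length :: L a) = true :=
    PrimrecRel.comp h2 (Primrec.list_range.comp (Primrec.succ.comp hlen))
      ((Primrec.succ.comp (Primrec.list_length.comp hH)).pair (hc.pair hnew))
  refine h3.of_eq fun a => ?_
  rw [List.all_eq_true]

theorem primrec_tr : Primrec₂ tr := by
  have h : Primrec fun p : ℕ × List ℕ =>
      (List.recOn p.2 [] fun x H IH => trStep p.1 x H IH : List (List Bool)) := by
    refine Primrec.list_rec (f := fun p : ℕ × List ℕ => p.2)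
      (g := fun p : ℕ × List ℕ => ([] : List (List Bool)))
      (h := fun (p : ℕ × List ℕ) (q : ℕ × List ℕ × List (List Bool)) =>
        trStep p.1 q.1 q.2.1 q.2.2) Primrec.snd (Primrec.const []) ?_
    exact primrec_trStep (Primrec.fst.comp Primrec.fst) (Primrec.fst.comp Primrec.snd)
      (Primrec.fst.comp (Primrec.snd.comp Primrec.snd))
      (Primrec.snd.comp (Primrec.snd.comp Primrec.snd))
  refine Primrec.of_eq h fun p => ?_
  obtain ⟨c, l⟩ := p
  induction l with
  | nil => rfl
  | cons x H ih =>
    show trStep c x H _ = trStep c x H (tr c H)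
    exact congrArg (trStep c x H) ih

theorem primrec_UV : Primrec₂ UV := by
  show Primrec fun p : ℕ × List ℕ => UV p.1 p.2
  unfold UV acc
  have hc : Primrec fun p : ℕ × List ℕ => p.1.unpair.1 :=
    Primrec.fst.comp (Primrec.unpair.comp Primrec.fst)
  have he : Primrec fun p : ℕ × List ℕ => p.1.unpair.2 :=
    Primrec.snd.comp (Primrec.unpair.comp Primrec.fst)
  refine Primrec.and.comp ?_ ?_
  · exact (Primrec.eq.comp (Primrec.list_length.comp (primrec_tr.comp hc Primrec.snd))
      (Primrec.succ.comp (Primrec.list_length.comp (primrec_tr.comp hc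
        (Primrec.list_tail.comp Primrec.snd))))).decide
  · exact (Primrec.eq.comp (primrec_evn (Primrec.list_length.comp Primrec.snd) hc he
      (primrec_tr.comp hc Primrec.snd)) (Primrec.const (some 1))).decide

/-- the history -/
def HU (s : ℕ) : List ℕ := Hs UV s

/-- the c.e. set -/
noncomputable def A₀ : ℕ → Bool := CA UV

theorem res_length (H : List ℕ) (k : ℕ) : (res H k).length = k := by simp [res]

theorem res_getD {H : List ℕ} {k n : ℕ} :
    (res H k).getD n false = (decide (n < k) && memb H n) := by
  unfold res
  by_cases h : n < k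
  · simp [h]
  · simp [h]

section main

variable (c : ℕ)

/-- the list of approximations at stage `s` -/
def T (s : ℕ) : List (List Bool) := tr c (HU s)

theorem T_succ (s : ℕ) : (T c (s + 1) = T c s) ∨
    (T c (s + 1) = res (HU (s + 1)) (T c s).length :: T c s ∧
      ∀ e ≤ (T c s).length, cvg (s + 1) c e (T c (s + 1)) = true) := by
  have h1 : T c (s + 1) = trStep c (nxt UV (Hs UV s)) (Hs UV s) (T c s) := rfl
  have h2 : nxt UV (Hs UV s) :: Hs UV s = HU (s + 1) := rfl
  unfold trStep at h1
  rw [h2, Hs_length] at h1
  split at h1
  · rename_i h3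
    right
    refine ⟨h1, fun e he => ?_⟩
    rw [List.all_eq_true] at h3
    rw [h1]
    exact h3 e (List.mem_range.2 (by omega))
  · left
    exact h1

theorem T_succ_of {s : ℕ} (h : ∀ e ≤ (T c s).length,
    cvg (s + 1) c e (res (HU (s + 1)) (T c s).length :: T c s) = true) :
    T c (s + 1) = res (HU (s + 1)) (T c s).length :: T c s := by
  have h1 : T c (s + 1) = trStep c (nxt UV (Hs UV s)) (Hs UV s) (T c s) := rfl
  have h2 : nxt UV (Hs UV s) :: Hs UV s = HU (s + 1) := rfl
  unfold trStep at h1
  rw [h2, Hs_length, if_pos] at h1
  · exact h1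
  · rw [List.all_eq_true]
    intro e he
    exact h e (by have := List.mem_range.1 he; omega)

theorem T_len_le (s : ℕ) : (T c s).length ≤ s := by
  induction s with
  | zero => exact le_rfl
  | succ s ih =>
    rcases T_succ c s with h | ⟨h, -⟩
    · rw [h]; omega
    · rw [h, List.length_cons]; omega

theorem T_suffix {s s' : ℕ} (h : s ≤ s') : T c s <:+ T c s' := by
  induction s', h using Nat.le_induction with
  | base => exact List.suffix_refl _
  | succ k _ ih =>
    rcases T_succ c k with h | ⟨h, -⟩
    · rw [h]; exact ih
    · rw [h]; exact ih.trans (List.suffix_cons _ _)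

variable {c} {U : ℕ → List (List Bool) → Bool}
  (hc : ∀ e L, (Denumerable.ofNat Code c).eval (Encodable.encode (e, L)) =
    Part.some (Encodable.encode (U e L)))

include hc in
theorem ev_cvg (e : ℕ) (L : List (List Bool)) : ∃ t, ∀ t' ≥ t, cvg t' c e L = true := by
  have h : (Encodable.encode (U e L)) ∈
      (Denumerable.ofNat Code c).eval (Encodable.encode (e, L)) := by
    rw [hc]; exact Part.mem_some _
  obtain ⟨k, hk⟩ := Nat.Partrec.Code.evaln_complete.1 h
  refine ⟨k, fun t' ht' => ?_⟩
  unfold cvg
  rw [Option.isSome_iff_exists]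
  exact ⟨_, Nat.Partrec.Code.evaln_mono ht' hk⟩

include hc in
theorem acc_iff {e t : ℕ} {L : List (List Bool)} (h : cvg t c e L = true) :
    acc t c e L = true ↔ U e L = true := by
  unfold cvg at h
  obtain ⟨v, hv⟩ := Option.isSome_iff_exists.1 h
  have h1 := Nat.Partrec.Code.evaln_sound hv
  rw [hc, Part.mem_some_iff] at h1
  unfold acc
  rw [hv, h1, decide_eq_true_iff]
  cases U e L <;> simp

/-- the restrictions of the enumeration stabilise -/
theorem res_stable (k : ℕ) : ∃ s₁, ∀ s ≥ s₁, res (HU s) k = res (HU s₁) k := by
  have h : ∀ n, ∃ s₁, ∀ s ≥ s₁, memb (HU s) n = A₀ n := by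
    intro n
    cases hA : A₀ n with
    | true =>
      obtain ⟨s, hs⟩ := (CA_iff UV).1 hA
      exact ⟨s, fun s' hs' => memb_iff.2 (Hs_mono UV hs' hs)⟩
    | false =>
      refine ⟨0, fun s _ => ?_⟩
      cases hm : memb (HU s) n with
      | false => rfl
      | true =>
        have : A₀ n = true := (CA_iff UV).2 ⟨s, memb_iff.1 hm⟩
        rw [hA] at this
        simp at this
  choose f hf using h
  refine ⟨(Finset.range k).sup f, fun s hs => ?_⟩
  unfold res
  apply List.map_congr_left
  intro n hn
  have h1 : f n ≤ (Finset.range k).sup f :=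
    Finset.le_sup (Finset.mem_range.2 (List.mem_range.1 hn))
  rw [hf n s (le_trans h1 hs), hf n _ h1]

include hc in
theorem T_unbounded (k : ℕ) : ∃ s, (T c s).length = k := by
  induction k with
  | zero => exact ⟨0, rfl⟩
  | succ k ih =>
    obtain ⟨s, hs⟩ := ih
    by_contra hcon
    push Not at hcon
    -- the list never changes
    have hconst : ∀ s' ≥ s, T c s' = T c s := by
      intro s' hs'
      induction s', hs' using Nat.le_induction with
      | base => rfl
      | succ t ht iht =>
        rcases T_succ c t with h | ⟨h, -⟩
        · rw [h, iht]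
        · exfalso
          apply hcon (t + 1)
          rw [h, List.length_cons, iht, hs]
    obtain ⟨s₁, hs₁⟩ := res_stable k
    choose f hf using ev_cvg hc
    set L := res (HU s₁) k :: T c s with hL
    set t := max s (max s₁ ((Finset.range (k + 1)).sup fun e => f e L)) with ht
    have h1 : T c (t + 1) = res (HU (t + 1)) (T c t).length :: T c t := by
      apply T_succ_of
      intro e he
      rw [hconst t (le_max_left _ _), hs] at he ⊢
      rw [hs₁ (t + 1) (by
        have := le_max_left s₁ ((Finset.range (k + 1)).sup fun e => f e L)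
        have := le_max_right s (max s₁ ((Finset.range (k + 1)).sup fun e => f e L))
        omega)]
      apply hf e L
      have h2 : f e L ≤ (Finset.range (k + 1)).sup fun e => f e L :=
        Finset.le_sup (f := fun e => f e L) (Finset.mem_range.2 (by omega))
      have := le_max_right s₁ ((Finset.range (k + 1)).sup fun e => f e L)
      have := le_max_right s (max s₁ ((Finset.range (k + 1)).sup fun e => f e L))
      omega
    apply hcon (t + 1)
    rw [h1, List.length_cons, hconst t (le_max_left _ _), hs]

open Classical in
/-- the stage at which the approximation number `k` is chosen -/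
noncomputable def st (hc : ∀ e L, (Denumerable.ofNat Code c).eval (Encodable.encode (e, L)) =
    Part.some (Encodable.encode (U e L))) (k : ℕ) : ℕ := Nat.find (T_unbounded hc (k + 1))

theorem st_spec (k : ℕ) : (T c (st hc k)).length = k + 1 := by
  classical
  exact Nat.find_spec (T_unbounded hc (k + 1))

theorem st_min {k s : ℕ} (h : s < st hc k) : (T c s).length ≠ k + 1 := by
  classical
  exact Nat.find_min (T_unbounded hc (k + 1)) h

/-- the approximation -/
noncomputable def al (hc : ∀ e L, (Denumerable.ofNat Code c).eval (Encodable.encode (e, L)) =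
    Part.some (Encodable.encode (U e L))) (k : ℕ) : List Bool := (T c (st hc k)).headD []

theorem T_new (k : ℕ) : ∃ s, st hc k = s + 1 ∧ (T c s).length = k ∧
    T c (s + 1) = res (HU (s + 1)) k :: T c s ∧
      ∀ e ≤ k, cvg (s + 1) c e (T c (s + 1)) = true := by
  have h1 := st_spec hc k
  obtain ⟨s, hs⟩ : ∃ s, st hc k = s + 1 := by
    apply Nat.exists_eq_succ_of_ne_zero
    intro h0
    rw [h0] at h1
    have := T_len_le c 0
    omega
  have h2 := st_min hc (show s < st hc k by omega)
  rw [hs] at h1
  rcases T_succ c s with h | ⟨h, h'⟩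
  · rw [h] at h1
    exact absurd h1 h2
  · have h3 : (T c s).length = k := by
      rw [h, List.length_cons] at h1
      omega
    rw [h3] at h h'
    exact ⟨s, hs, h3, h, h'⟩

theorem al_eq (k : ℕ) : al hc k = res (HU (st hc k)) k := by
  obtain ⟨s, hs, -, h, -⟩ := T_new hc k
  unfold al
  rw [hs, h]
  rfl

theorem st_mono {j k : ℕ} (h : j ≤ k) : st hc j ≤ st hc k := by
  by_contra hcon
  push Not at hcon
  have h1 := (T_suffix c hcon.le).length_le
  rw [st_spec, st_spec] at h1
  have h2 : j = k := by omega
  subst h2
  omega

theorem st_gt (k : ℕ) : k < st hc k := by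
  have := T_len_le c (st hc k)
  rw [st_spec] at this
  omega

theorem T_eq_of_length {s s' : ℕ} (h : (T c s).length = (T c s').length) : T c s = T c s' := by
  rcases le_total s s' with h1 | h1
  · exact (T_suffix c h1).eq_of_length h
  · exact ((T_suffix c h1).eq_of_length h.symm).symm

theorem hst_eq (k : ℕ) : hst (al hc) (k + 1) = T c (st hc k) := by
  induction k with
  | zero =>
    obtain ⟨s, hs, h0, h, -⟩ := T_new hc 0
    show [al hc 0] = _
    rw [al_eq, hs, h, List.length_eq_zero_iff.1 h0]
  | succ k ih =>
    obtain ⟨s, hs, h0, h, -⟩ := T_new hc (k + 1)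
    have h1 : T c s = T c (st hc k) := T_eq_of_length (by rw [h0, st_spec])
    show al hc (k + 1) :: hst (al hc) (k + 1) = _
    rw [ih, al_eq, hs, h, h1]

theorem comp_al : Computable (al hc) := by
  have h1 : Computable₂ fun k s : ℕ => decide ((T c s).length = k + 1) := by
    have hT : Primrec fun s => T c s :=
      primrec_tr.comp (Primrec.const c) (primrec_Hs UV primrec_UV)
    exact ((Primrec.eq.comp (Primrec.list_length.comp (hT.comp Primrec.snd))
      (Primrec.succ.comp Primrec.fst)).decide).to_comp
  have h2 : Partrec fun k : ℕ => Nat.rfind fun s =>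
      (Part.some (decide ((T c s).length = k + 1)) : Part Bool) := Partrec.rfind h1.partrec₂
  have h3 : Computable (st hc) := by
    refine Partrec.of_eq h2 fun k => Part.eq_some_iff.2 (Nat.mem_rfind.2 ⟨?_, fun {m} hm => ?_⟩)
    · rw [Part.mem_some_iff, st_spec]
      simp
    · rw [Part.mem_some_iff]
      have := st_min hc hm
      simpa using this
  have h4 : Primrec₂ fun s k : ℕ => res (HU s) k :=
    primrec_res ((primrec_Hs UV primrec_UV).comp Primrec.fst) Primrec.snd
  refine (h4.to_comp.comp h3 Computable.id).of_eq fun k => ?_
  rw [al_eq]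
  rfl

theorem apx_al : Apx A₀ U (al hc) where
  comp := comp_al hc
  len k := by rw [al_eq, res_length]
  mono j k n hjk h := by
    rw [al_eq, res_getD, Bool.and_eq_true, decide_eq_true_iff, memb_iff] at h ⊢
    exact ⟨by omega, Hs_mono UV (st_mono hc hjk) h.2⟩
  lim n := by
    cases hA : A₀ n with
    | true =>
      obtain ⟨s, hs⟩ := (CA_iff UV).1 hA
      refine ⟨max s (n + 1), fun k hk => ?_⟩
      rw [al_eq, res_getD, Bool.and_eq_true, decide_eq_true_iff, memb_iff]
      have h1 := st_gt hc k
      exact ⟨by omega, Hs_mono UV (by omega) hs⟩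
    | false =>
      refine ⟨0, fun k _ => ?_⟩
      cases hm : (al hc k).getD n false with
      | false => rfl
      | true =>
        rw [al_eq, res_getD, Bool.and_eq_true, decide_eq_true_iff, memb_iff] at hm
        have : A₀ n = true := (CA_iff UV).2 ⟨_, hm.2⟩
        rw [hA] at this
        simp at this
  low e h := by
    have hfire : ∀ K, ∃ s ≥ K, UV (Nat.pair c e) (Hs UV s) = true := by
      intro K
      obtain ⟨k, hk, hU⟩ := h (max K e)
      obtain ⟨s, hs, h0, hT, hcv⟩ := T_new hc k
      refine ⟨st hc k, le_trans (le_trans (le_max_left _ _) hk) (st_gt hc k).le, ?_⟩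
      rw [UV_iff, Hs_length]
      have h1 : (Hs UV (st hc k)).tail = Hs UV s := by rw [hs]; rfl
      rw [h1]
      refine ⟨?_, ?_⟩
      · show (T c (st hc k)).length = (T c s).length + 1
        rw [st_spec, h0]
      · show acc (st hc k) c e (T c (st hc k)) = true
        rw [hs, acc_iff hc (hcv e (le_trans (le_max_right _ _) hk)), ← hs, ← hst_eq]
        exact hU
    obtain ⟨t, ht, htrue⟩ := true_stage UV hfire
    rw [UV_iff, Hs_length] at ht
    obtain ⟨ht1, ht2⟩ := ht
    change (T c t).length = (tr c (Hs UV t).tail).length + 1 at ht1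
    change acc t c e (T c t) = true at ht2
    cases t with
    | zero =>
      exfalso
      have := T_len_le c 0
      omega
    | succ s =>
      have h2 : (Hs UV (s + 1)).tail = Hs UV s := rfl
      rw [h2] at ht1
      change (T c (s + 1)).length = (T c s).length + 1 at ht1
      set k := (T c s).length with hk
      -- the stage is the one of `k`
      have hst : st hc k = s + 1 := by
        have h3 : st hc k ≤ s + 1 := by
          classical
          exact Nat.find_min' (T_unbounded hc (k + 1)) ht1
        by_contra hne
        have h4 : st hc k ≤ s := by omega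
        have h5 := (T_suffix c h4).length_le
        rw [st_spec, ← hk] at h5
        omega
      have hcv : cvg (s + 1) c e (T c (s + 1)) = true := by
        unfold acc at ht2
        rw [decide_eq_true_iff] at ht2
        unfold cvg
        rw [ht2]
        rfl
      refine ⟨k, ?_, fun n hn => ?_⟩
      · rw [hst_eq, hst]
        exact (acc_iff hc hcv).1 ht2
      · rw [al_eq, res_getD, hst]
        have h6 := T_len_le c s
        rw [← hk] at h6
        cases hA : A₀ n with
        | true =>
          rw [Bool.and_eq_true, decide_eq_true_iff, memb_iff]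
          exact ⟨hn, htrue n (by omega) hA⟩
        | false =>
          cases hm : memb (HU (s + 1)) n with
          | false => simp
          | true =>
            have : A₀ n = true := (CA_iff UV).2 ⟨_, memb_iff.1 hm⟩
            rw [hA] at this
            simp at this

end main

/-- there is a noncomputable c.e. set with true stages for all computable families of processes -/
theorem exists_lowCE : ∃ A, LowCE A := by
  refine ⟨A₀, CA_re UV primrec_UV, CA_not_computable UV, fun U hU => ?_⟩
  have h1 : Computable fun q : ℕ × List (List Bool) => U q.1 q.2 := hU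
  obtain ⟨cd, hcd⟩ := Code.exists_code.1 h1.partrec
  have hc : ∀ e L, (Denumerable.ofNat Code (Encodable.encode cd)).eval
      (Encodable.encode (e, L)) = Part.some (Encodable.encode (U e L)) := by
    intro e L
    rw [Denumerable.ofNat_encode, hcd]
    simp
  exact ⟨al hc, apx_al hc⟩

end Pool.Agent.H109R3.LA
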