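import Pool.Agent.H938R3.TC.Defs
import Pool.Agent.H109R3.TC.Stmt
import Pool.Agent.Helper583.TCJ14

/-!
Use principle: maps computable with an oracle in the sense of `RecursiveIn`.
-/

namespace Pool.Agent.H109R3.LA

open Pool.Agent.Helper583.TT (CMS IsName)
open Pool.Agent.H938R3.TC (CompMapO)
open Pool.Agent.H109R3.TC (CompMapIn)
open Pool.Agent.Helper583.TC.J2 (srchO srchO_some srchO_ne primrec_srchO NF.normal_form NF.Mon)

/-- the characteristic function -/
def ch (A : ℕ → Bool) (n : ℕ) : ℕ := (A n).toNat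

/-- the names of the word -/
def fsts (w : List ℕ) : List ℕ := w.map fun z => z.unpair.1

/-- the oracle bits of the word -/
def snds (w : List ℕ) : List ℕ := w.map fun z => z.unpair.2

theorem compMapO_of {A : ℕ → Bool} {M N : CMS} {h : M.Y → N.Y} (hc : CompMapIn (ch A) M N h) :
    CompMapO A M N h := by
  obtain ⟨φ, hφ, hspec⟩ := hc
  obtain ⟨F, hF, hmon, hFs⟩ := Pool.Agent.Helper583.TC.J2.NF.normal_form (ch A) _ hφ
  have key : ∀ (l : List ℕ) (n m : ℕ), m ∈ φ (l, n) ↔
      ∃ k, F (Pool.Agent.Helper583.TC.J2.NF.pre (ch A) k) (Encodable.encode (l, n)) = some m := by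
    intro l n m
    rw [← hFs]
    simp
  -- the new functional
  let f : List ℕ × ℕ → Option ℕ := fun x =>
    srchO (fun k => F (snds x.1) (Encodable.encode ((fsts x.1).take k, x.2))) (x.1.length + 1)
  have hf : Primrec f := by
    refine primrec_srchO (f := fun (x : List ℕ × ℕ) (k : ℕ) =>
      F (snds x.1) (Encodable.encode ((fsts x.1).take k, x.2))) ?_
      (Primrec.succ.comp (Primrec.list_length.comp Primrec.fst))
    have h1 : Primrec fun w : List ℕ => snds w := by
      unfold snds
      exact Primrec.list_map Primrec.id (Primrec.snd.comp (Primrec.unpair.comp Primrec.snd))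
    have h2 : Primrec fun w : List ℕ => fsts w := by
      unfold fsts
      exact Primrec.list_map Primrec.id (Primrec.fst.comp (Primrec.unpair.comp Primrec.snd))
    refine hF.comp (h1.comp (Primrec.fst.comp Primrec.fst)) ?_
    exact Primrec.encode.comp ((Primrec.list_take.comp Primrec.snd
      (h2.comp (Primrec.fst.comp Primrec.fst))).pair (Primrec.snd.comp Primrec.fst))
  have hfs : ∀ (p : ℕ → ℕ) L, fsts (Pool.Agent.Helper583.TT.pre
      (Pool.Agent.H938R3.TC.orc A p) L) = Pool.Agent.Helper583.TT.pre p L := by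
    intro p L
    unfold fsts Pool.Agent.Helper583.TT.pre
    rw [List.map_map]
    apply List.map_congr_left
    intro j _
    simp [Pool.Agent.H938R3.TC.orc]
  have hsn : ∀ (p : ℕ → ℕ) L, snds (Pool.Agent.Helper583.TT.pre
      (Pool.Agent.H938R3.TC.orc A p) L) = Pool.Agent.Helper583.TC.J2.NF.pre (ch A) L := by
    intro p L
    unfold snds Pool.Agent.Helper583.TT.pre Pool.Agent.Helper583.TC.J2.NF.pre
    rw [List.map_map]
    apply List.map_congr_left
    intro j _
    simp [Pool.Agent.H938R3.TC.orc, ch]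
  refine ⟨fun x => (f x : Part ℕ), hf.to_comp.ofOption, fun x p hp => ?_⟩
  obtain ⟨q, hq, hq2⟩ := hspec x p hp
  have hsound : ∀ n k m, f (Pool.Agent.Helper583.TT.pre
      (Pool.Agent.H938R3.TC.orc A p) k, n) = some m → m = q n := by
    intro n k m hm
    obtain ⟨j, hj, hj2⟩ := srchO_some _ _ _ hm
    simp only [hfs, hsn] at hj hj2
    rw [Pool.Agent.Helper583.TT.pre_length] at hj
    rw [Pool.Agent.Helper583.TT.pre_take p (by omega)] at hj2
    exact (hq2 n).2 j m ((key _ _ _).2 ⟨_, hj2⟩)
  refine ⟨q, hq, fun n => ⟨?_, fun k m hm => ?_⟩⟩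
  · obtain ⟨k, hk⟩ := (hq2 n).1
    obtain ⟨t, ht⟩ := (key _ _ _).1 hk
    refine ⟨max k t, ?_⟩
    have h1 : F (snds (Pool.Agent.Helper583.TT.pre (Pool.Agent.H938R3.TC.orc A p) (max k t)))
        (Encodable.encode ((fsts (Pool.Agent.Helper583.TT.pre
          (Pool.Agent.H938R3.TC.orc A p) (max k t))).take k, n)) = some (q n) := by
      rw [hfs, hsn, Pool.Agent.Helper583.TT.pre_take p (le_max_left _ _)]
      exact hmon _ _ _ _ (Pool.Agent.Helper583.TC.J2.NF.pre_le _ (le_max_right _ _)) ht
    obtain ⟨v, hv⟩ := srchO_ne (fun j => F (snds (Pool.Agent.Helper583.TT.pre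
      (Pool.Agent.H938R3.TC.orc A p) (max k t))) (Encodable.encode ((fsts
        (Pool.Agent.Helper583.TT.pre (Pool.Agent.H938R3.TC.orc A p) (max k t))).take j, n)))
      ((Pool.Agent.Helper583.TT.pre (Pool.Agent.H938R3.TC.orc A p) (max k t)).length + 1) k (q n)
      (by
        rw [Pool.Agent.Helper583.TT.pre_length]
        exact Nat.lt_succ_of_le (le_max_left _ _)) h1
    have hv' : f (Pool.Agent.Helper583.TT.pre
      (Pool.Agent.H938R3.TC.orc A p) (max k t), n) = some v := hv
    have := hsound _ _ _ hv'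
    subst this
    show q n ∈ (f _ : Part ℕ)
    rw [hv']
    exact Part.mem_some _
  · have h1 : f (Pool.Agent.Helper583.TT.pre (Pool.Agent.H938R3.TC.orc A p) k, n) = some m := by
      have h2 : m ∈ ((f (Pool.Agent.Helper583.TT.pre
        (Pool.Agent.H938R3.TC.orc A p) k, n) : Option ℕ) : Part ℕ) := hm
      rwa [Part.mem_ofOption, Option.mem_def] at h2
    exact hsound _ _ _ h1

end Pool.Agent.H109R3.LA
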