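import Pool.Agent.H109R3.LA.Main
import Pool.Agent.H109R3.LA.Low
import Pool.Agent.H109R3.LA.Use
import Pool.Agent.H109R3.LA.Fin
import Pool.Agent.Helper583.TTReenum

/-!
Assembly: c.e. degrees which are not degrees of topological categoricity.
-/

namespace Pool.Agent.H109R3.LA

open Pool.Agent.Helper583.TT (CMS CR cr_of_comp dense_of_range)
open Pool.Agent.H938R3.TC (CompMapO LowCE)
open Pool.Agent.H109R3.TC (CompMapIn CatBoth)

/-- what is needed for spaces with a region without isolated points -/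
def CaseB (A : ℕ → Bool) : Prop :=
  ∀ (Y : Type) [MetricSpace Y] [CompleteSpace Y] [Infinite Y] (c : ℕ → Y), DenseRange c →
    Function.Injective c → CR (fun p : ℕ × ℕ => dist (c p.1) (c p.2)) →
    ¬ Dense {y : Y | IsOpen ({y} : Set Y)} →
    ∃ M N : CMS, Nonempty (M.Y ≃ₜ Y) ∧ Nonempty (N.Y ≃ₜ Y) ∧
      ∀ h : M.Y ≃ₜ N.Y, ¬ (CompMapO A M N h ∧ CompMapO A N M h.symm)

theorem not_catBoth {A : ℕ → Bool} (hA : LowCE A) (hB : CaseB A) (X : Type) [TopologicalSpace X]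
    [Infinite X] (hX : ∃ M : CMS, Nonempty (M.Y ≃ₜ X)) : ¬ CatBoth X (ch A) := by
  intro hcat
  obtain ⟨M₀, ⟨i₀⟩⟩ := hX
  have : Infinite M₀.Y := Infinite.of_injective i₀.symm i₀.symm.injective
  have hc := cr_of_comp M₀
  obtain ⟨g, hg, hinj, hr⟩ := Pool.Agent.Helper583.TT.TTInj.exists_inj M₀.c M₀.dense hc
  have hd : DenseRange fun n => M₀.c (g n) := dense_of_range hr M₀.dense
  have hc' : CR fun p : ℕ × ℕ => dist (M₀.c (g p.1)) (M₀.c (g p.2)) :=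
    hc.comp ((hg.comp Computable.fst).pair (hg.comp Computable.snd) :
      Computable fun p : ℕ × ℕ => (g p.1, g p.2))
  obtain ⟨M, N, ⟨iM⟩, ⟨iN⟩, hMN⟩ : ∃ M N : CMS, Nonempty (M.Y ≃ₜ M₀.Y) ∧
      Nonempty (N.Y ≃ₜ M₀.Y) ∧
      ∀ h : M.Y ≃ₜ N.Y, ¬ (CompMapO A M N h ∧ CompMapO A N M h.symm) := by
    by_cases hiso : Dense {y : M₀.Y | IsOpen ({y} : Set M₀.Y)}
    · exact caseA2 hd hinj hc' hiso hA
    · exact hB M₀.Y _ hd hinj hc' hiso
  obtain ⟨h, h1, h2⟩ := hcat M N ⟨iM.trans i₀⟩ ⟨iN.trans i₀⟩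
  exact hMN h ⟨compMapO_of h1, compMapO_of h2⟩

end Pool.Agent.H109R3.LA
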