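import Pool.Agent.H109R3.LA.Assemble

/-!
The final statement, modulo the case of a region without isolated points.
-/

namespace Pool.Agent.H109R3.LA

open Pool.Agent.Helper583.TT (CMS)
open Pool.Agent.Helper583.TC (Red orc)
open Pool.Agent.H938R3.TC (LowCE)
open Pool.Agent.H109R3.TC (CatBoth)

theorem final {A : ℕ → Bool} (hA : LowCE A) (hB : CaseB A) :
    REPred (fun n => A n = true) ∧ ¬ ComputablePred (fun n => A n = true) ∧
    (∀ (X : Type) [TopologicalSpace X] [Infinite X], (∃ M : CMS, Nonempty (M.Y ≃ₜ X)) →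
      ¬ CatBoth X (ch A)) ∧
    ∀ (X : Type) [TopologicalSpace X], (∃ M : CMS, Nonempty (M.Y ≃ₜ X)) →
      ¬ (CatBoth X (ch A) ∧ ∀ a : ℕ → ℕ, CatBoth X a → Red (ch A) a) := by
  have hnc : ¬ Computable A := hA.nc
  have hnp : ¬ ComputablePred (fun n => A n = true) := by
    rintro ⟨_, hp⟩
    apply hnc
    refine hp.of_eq fun n => ?_
    rw [Bool.eq_iff_iff, decide_eq_true_iff]
  refine ⟨hA.re, hnp, fun X _ _ hX => not_catBoth hA hB X hX, fun X _ hX h => ?_⟩
  rcases finite_or_infinite X with hfin | hinf
  · have h1 := h.2 (fun _ => 0) (catBoth_of_finite X _)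
    apply hnc
    have h2 : Nat.Partrec (orc (ch A)) := by
      refine Nat.RecursiveIn.partrec_of_oracle ?_ h1
      intro g hg
      rw [Set.mem_singleton_iff] at hg
      subst hg
      exact Nat.Partrec.zero
    have h3 : Computable (ch A) := by
      have h4 : Partrec (orc (ch A)) := Partrec.nat_iff.2 h2
      exact h4
    have h5 : Computable fun n => decide (ch A n = 1) := by
      have h6 : Computable₂ fun a b : ℕ => decide (a = b) := Primrec.eq.decide.to_comp
      exact h6.comp h3 (Computable.const 1)
    refine h5.of_eq fun n => ?_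
    unfold ch
    cases A n <;> simp
  · exact not_catBoth hA hB X hX h.1

end Pool.Agent.H109R3.LA
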