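import Pool.Agent.H109R3.LA.Main

/-!
Dense isolated points, one-sided version: two presentations `M`, `N` without any homeomorphism
from `M` to `N` computable with a low c.e. oracle.
-/

namespace Pool.Agent.H109R3.LA.One

open Pool.Agent.Helper583.TT
open Pool.Agent.H938R3.TC
open Pool.Agent.H109R3.LA (Sys dec_length dec_pre commitO primrec_dec hst_length hst_getD comp_hst
  rnO_of_comp)
open Filter Topology
open Pool.Agent.Helper583.TC.J2 (srchO srchO_some srchO_ne primrec_srchO valsO valsO_succ
  primrec_valsO valsO_pre valsO_sound)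

/-! ### The event -/

/-- the requirement `e` finds at stage `s` an index near which a point can be added -/
def evA (a : List Bool) (e s : ℕ) : Option ℕ :=
  if rn e.unpair.1 (dec a (List.replicate s.unpair.2.unpair.2.unpair.1 s.unpair.2.unpair.1))
      (Nat.pair e s.unpair.1 + 2) = some (2 * Nat.pair e s.unpair.1 + 1) ∧
    fresh e s.unpair.2.unpair.1 = true ∧ s.unpair.2.unpair.1 < s
  then some s.unpair.2.unpair.1 else none

theorem evA_spec {a : List Bool} {e s m : ℕ} (h : evA a e s = some m) :
    rn e.unpair.1 (dec a (List.replicate s.unpair.2.unpair.2.unpair.1 m))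
      (Nat.pair e s.unpair.1 + 2) = some (2 * Nat.pair e s.unpair.1 + 1) ∧ fresh e m = true ∧
      m < s ∧ m = s.unpair.2.unpair.1 := by
  unfold evA at h
  split at h
  · rename_i h3
    simp only [Option.some.injEq] at h
    subst h
    exact ⟨h3.1, h3.2.1, h3.2.2, rfl⟩
  · simp at h

theorem primrec_evA : Primrec fun p : List Bool × ℕ × ℕ => evA p.1 p.2.1 p.2.2 := by
  have hu : ∀ {α : Type} [Primcodable α] {f : α → ℕ}, Primrec f → Primrec fun a => (f a).unpair.1 :=
    fun hf => Primrec.fst.comp (Primrec.unpair.comp hf)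
  have hv : ∀ {α : Type} [Primcodable α] {f : α → ℕ}, Primrec f → Primrec fun a => (f a).unpair.2 :=
    fun hf => Primrec.snd.comp (Primrec.unpair.comp hf)
  have hval : ∀ {α : Type} [Primcodable α] {e s : α → ℕ}, Primrec e → Primrec s →
      Primrec fun a => 2 * Nat.pair (e a) (s a).unpair.1 + 1 := fun he hs =>
    Primrec.nat_double_succ.comp (Primrec₂.natPair.comp he (hu hs))
  unfold evA
  have ha : Primrec fun q : List Bool × ℕ × ℕ => q.1 := Primrec.fst
  have he : Primrec fun q : List Bool × ℕ × ℕ => q.2.1 := Primrec.fst.comp Primrec.snd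
  have hs : Primrec fun q : List Bool × ℕ × ℕ => q.2.2 := Primrec.snd.comp Primrec.snd
  have hm : Primrec fun q : List Bool × ℕ × ℕ => q.2.2.unpair.2.unpair.1 := hu (hv hs)
  refine Primrec.ite (α := List Bool × ℕ × ℕ) ?_ (Primrec.option_some.comp hm)
    (Primrec.const none)
  refine PrimrecPred.and ?_ (PrimrecPred.and ?_ ?_)
  · refine Primrec.eq.comp ?_ (Primrec.option_some.comp (hval he hs))
    refine primrec_rn (hu he) ?_ ?_
    · exact primrec_dec ha (primrec_replicate (hu (hv (hv hs))) hm)
    · exact Primrec.nat_add.comp (Primrec₂.natPair.comp he (hu hs)) (Primrec.const 2)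
  · exact Primrec.eq.comp (primrec_fresh he hm) (Primrec.const true)
  · exact Primrec.nat_lt.comp hm hs

attribute [irreducible] evA

/-! ### The actions -/

/-- the action of the requirement `e` at the last stage of the history `H` -/
def actL (H : List (List Bool)) (e : ℕ) : Option ℕ :=
  if (List.range (H.length - 1)).all (fun j =>
      (evA (H.getD (H.length - 1 - j) []) e j).isNone) = true ∧ 0 < H.length then
    evA (H.getD 0 []) e (H.length - 1) else none

theorem actL_hst {α : ℕ → List Bool} {e s m : ℕ} :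
    actL (hst α (s + 1)) e = some m ↔
      (∀ j < s, evA (α j) e j = none) ∧ evA (α s) e s = some m := by
  unfold actL
  rw [hst_length, Nat.add_sub_cancel]
  have h0 : (hst α (s + 1)).getD 0 [] = α s := rfl
  rw [h0]
  have h1 : ((List.range s).all (fun j =>
      (evA ((hst α (s + 1)).getD (s - j) []) e j).isNone) = true ∧ 0 < s + 1) ↔
      ∀ j < s, evA (α j) e j = none := by
    rw [List.all_eq_true]
    constructor
    · rintro ⟨h, -⟩ j hj
      have := h j (List.mem_range.2 hj)
      rw [show s - j = s + 1 - 1 - j by omega, hst_getD α (s + 1) j (by omega)] at this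
      simpa using this
    · intro h
      refine ⟨fun j hj => ?_, by omega⟩
      rw [List.mem_range] at hj
      rw [show s - j = s + 1 - 1 - j by omega, hst_getD α (s + 1) j (by omega), h j hj]
      rfl
  by_cases hc : ∀ j < s, evA (α j) e j = none
  · rw [if_pos (h1.2 hc)]
    exact ⟨fun h => ⟨hc, h⟩, fun h => h.2⟩
  · rw [if_neg (fun h => hc (h1.1 h))]
    constructor
    · intro h; simp at h
    · intro h; exact absurd h.1 hc

theorem primrec_actL : Primrec₂ actL := by
  show Primrec fun p : List (List Bool) × ℕ => actL p.1 p.2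
  unfold actL
  have hlen : Primrec fun p : List (List Bool) × ℕ => p.1.length :=
    Primrec.list_length.comp Primrec.fst
  have hlen1 : Primrec fun p : List (List Bool) × ℕ => p.1.length - 1 :=
    Primrec.nat_sub.comp hlen (Primrec.const 1)
  refine Primrec.ite (PrimrecPred.and ?_ (Primrec.nat_lt.comp (Primrec.const 0) hlen)) ?_
    (Primrec.const none)
  · have hR : PrimrecRel fun (j : ℕ) (p : List (List Bool) × ℕ) =>
        (evA (p.1.getD (p.1.length - 1 - j) []) p.2 j).isNone = true := by
      have h0 : Primrec fun q : ℕ × List (List Bool) × ℕ =>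
          evA (q.2.1.getD (q.2.1.length - 1 - q.1) []) q.2.2 q.1 := by
        refine primrec_evA.comp (Primrec.pair ?_ (Primrec.pair
          (Primrec.snd.comp Primrec.snd) Primrec.fst))
        refine (Primrec.list_getD []).comp (Primrec.fst.comp Primrec.snd) ?_
        exact Primrec.nat_sub.comp (Primrec.nat_sub.comp (Primrec.list_length.comp
          (Primrec.fst.comp Primrec.snd)) (Primrec.const 1)) Primrec.fst
      have h1 := Primrec.not.comp (Primrec.option_isSome.comp h0)
      have h2 : Primrec fun q : ℕ × List (List Bool) × ℕ =>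
          (evA (q.2.1.getD (q.2.1.length - 1 - q.1) []) q.2.2 q.1).isNone :=
        h1.of_eq fun q => by
          cases evA (q.2.1.getD (q.2.1.length - 1 - q.1) []) q.2.2 q.1 <;> rfl
      exact Primrec.eq.comp h2 (Primrec.const true)
    have h2 : PrimrecRel fun (n : List ℕ) (p : List (List Bool) × ℕ) => ∀ j ∈ n,
        (evA (p.1.getD (p.1.length - 1 - j) []) p.2 j).isNone = true := hR.forall_mem_list
    have h3 : PrimrecPred fun p : List (List Bool) × ℕ => ∀ j ∈ List.range (p.1.length - 1),
        (evA (p.1.getD (p.1.length - 1 - j) []) p.2 j).isNone = true :=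
      PrimrecRel.comp h2 (Primrec.list_range.comp hlen1) Primrec.id
    refine h3.of_eq fun p => ?_
    rw [List.all_eq_true]
  · have h0 : Primrec fun p : List (List Bool) × ℕ => p.1.getD 0 [] :=
      (Primrec.list_getD ([] : List Bool)).comp (Primrec.fst (α := List (List Bool)) (β := ℕ))
        (Primrec.const 0)
    exact primrec_evA.comp (Primrec.pair h0 (Primrec.pair Primrec.snd hlen1))

/-- the system of actions -/
def sys (α : ℕ → List Bool) (hα : Computable α) : Sys where
  act e s := actL (hst α (s + 1)) e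
  lt {e s m} h := by
    exact (evA_spec (actL_hst.1 h).2).2.2.1
  fr {e s m} h := by
    exact (evA_spec (actL_hst.1 h).2).2.1
  un {e s s' m m'} h h' := by
    rw [actL_hst] at h h'
    rcases lt_trichotomy s s' with hl | hl | hl
    · have := h'.1 s hl
      rw [h.2] at this
      simp at this
    · exact hl
    · have := h.1 s' hl
      rw [h'.2] at this
      simp at this
  comp := primrec_actL.to_comp.comp ((comp_hst hα).comp (Computable.succ.comp Computable.snd))
    Computable.fst

theorem sys_act {α : ℕ → List Bool} {hα : Computable α} {e s m : ℕ} :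
    (sys α hα).act e s = some m ↔
      (∀ j < s, evA (α j) e j = none) ∧ evA (α s) e s = some m := actL_hst

theorem act_of_ev {α : ℕ → List Bool} {hα : Computable α} {e s m : ℕ}
    (h : evA (α s) e s = some m) : ∃ s' m', (sys α hα).act e s' = some m' := by
  classical
  have hex : ∃ s, (evA (α s) e s).isSome := ⟨s, by rw [h]; rfl⟩
  have h1 := Nat.find_spec hex
  obtain ⟨m', hm'⟩ := Option.isSome_iff_exists.1 h1
  refine ⟨Nat.find hex, m', sys_act.2 ⟨fun j hj => ?_, hm'⟩⟩
  have := Nat.find_min hex hj
  simpa using this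

/-- the processes: some attempt for the pair of programs `e` acts -/
def proc (e : ℕ) (H : List (List Bool)) : Bool :=
  (List.range H.length).any fun E => decide (E.unpair.1 = e) && (actL H E).isSome

theorem primrec_proc : Primrec₂ proc := by
  show Primrec fun p : ℕ × List (List Bool) => proc p.1 p.2
  unfold proc
  have hR : PrimrecRel fun (E : ℕ) (p : ℕ × List (List Bool)) =>
      (decide (E.unpair.1 = p.1) && (actL p.2 E).isSome) = true := by
    have h1 : Primrec fun q : ℕ × ℕ × List (List Bool) => decide (q.1.unpair.1 = q.2.1) :=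
      (Primrec.eq.comp (Primrec.fst.comp (Primrec.unpair.comp Primrec.fst))
        (Primrec.fst.comp Primrec.snd)).decide
    have h2 : Primrec fun q : ℕ × ℕ × List (List Bool) => (actL q.2.2 q.1).isSome :=
      Primrec.option_isSome.comp (primrec_actL.comp (Primrec.snd.comp Primrec.snd) Primrec.fst)
    exact Primrec.eq.comp (Primrec.and.comp h1 h2) (Primrec.const true)
  have h2 : PrimrecRel fun (n : List ℕ) (p : ℕ × List (List Bool)) => ∃ E ∈ n,
      (decide (E.unpair.1 = p.1) && (actL p.2 E).isSome) = true := hR.exists_mem_list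
  have h3 : PrimrecPred fun p : ℕ × List (List Bool) => ∃ E ∈ List.range p.2.length,
      (decide (E.unpair.1 = p.1) && (actL p.2 E).isSome) = true :=
    PrimrecRel.comp h2 (Primrec.list_range.comp (Primrec.list_length.comp Primrec.snd)) Primrec.id
  obtain ⟨_, h4⟩ := h3
  refine h4.of_eq fun p => ?_
  rw [Bool.eq_iff_iff, decide_eq_true_iff, List.any_eq_true]

theorem proc_iff {α : ℕ → List Bool} {hα : Computable α} {e s : ℕ} :
    proc e (hst α (s + 1)) = true ↔ ∃ E m, E.unpair.1 = e ∧ (sys α hα).act E s = some m := by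
  unfold proc
  rw [hst_length, List.any_eq_true]
  constructor
  · rintro ⟨E, -, hE⟩
    rw [Bool.and_eq_true, decide_eq_true_iff] at hE
    obtain ⟨m, hm⟩ := Option.isSome_iff_exists.1 hE.2
    exact ⟨E, m, hE.1, hm⟩
  · rintro ⟨E, m, h1, h2⟩
    refine ⟨E, List.mem_range.2 (Nat.lt_succ_of_le ((sys α hα).act_le h2)), ?_⟩
    rw [Bool.and_eq_true, decide_eq_true_iff]
    refine ⟨h1, ?_⟩
    show ((sys α hα).act E s).isSome = true
    rw [h2]
    rfl

/-! ### The two presentations -/

variable {Y : Type} [MetricSpace Y] [CompleteSpace Y] {c : ℕ → Y} {hd : DenseRange c}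
  {hc : CR fun p : ℕ × ℕ => dist (c p.1) (c p.2)}

/-- a requirement does not act at a true stage if it codes a homeomorphism -/
theorem not_act {S : Sys} {A : ℕ → Bool} {a : List Bool} {F : (S.NA hd hc).Y ≃ₜ (MA hd hc).Y}
    {e : ℕ} (h1 : RnO A (S.NA hd hc) (MA hd hc) F e.unpair.1) (s m : ℕ)
    (ha : ∀ j < s, a.getD j false = A j)
    (h : S.act e s = some m) (hev : evA a e s = some m) : False := by
  obtain ⟨hq2, -, hms, hm⟩ := evA_spec hev
  set k := s.unpair.1 with hk
  set L := s.unpair.2.unpair.2.unpair.1 with hL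
  have hLs : L ≤ s := by
    rw [hL]
    exact le_trans (Nat.unpair_left_le _) (le_trans (Nat.unpair_right_le _)
      (Nat.unpair_right_le _))
  set v : (MA hd hc).Y := aM c (2 * Nat.pair e k + 1) with hv
  -- everything close to the point `m` is mapped to `v`
  have hclose : ∀ z : (S.NA hd hc).Y, dist ((S.NA hd hc).c m) z ≤ 1 / 2 ^ L → F z = v := by
    intro z hz
    have h3 : dist ((MA hd hc).c (2 * Nat.pair e k + 1)) (F z) ≤ 1 / 2 ^ (Nat.pair e k + 2) := by
      refine commitO h1 z (σ := List.replicate L m) ?_ (a := a) ?_ hq2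
      · intro j hj
        rw [List.length_replicate] at hj
        have hget : (List.replicate L m).getD j 0 = m := by
          rw [List.getD_eq_getElem _ _ (by rw [List.length_replicate]; exact hj)]
          exact List.getElem_replicate _
        rw [hget]
        exact le_trans hz (pow_anti hj.le)
      · intro j hj
        rw [List.length_replicate] at hj
        exact ha j (lt_of_lt_of_le hj hLs)
    refine aM_iso (lt_of_le_of_lt (b := 1 / 2 ^ (Nat.pair e k + 2)) ?_ ?_)
    · exact (dist_comm _ _).trans_le h3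
    · rw [show Nat.pair e k + 2 = (Nat.pair e k + 1) + 1 by ring]
      have h5 := pow_split (Nat.pair e k + 1)
      have h6 : (0:ℝ) < 1 / 2 ^ (Nat.pair e k + 1 + 1) := by positivity
      linarith
  have hzm := S.aN_act_dist (c := c) h
  have e1 : F (S.aN c m : (S.NA hd hc).Y) = v := by
    apply hclose
    show dist (S.aN c m) (S.aN c m) ≤ 1 / 2 ^ L
    rw [dist_self]
    positivity
  have e2 : F (S.aN c (2 * Nat.pair e s + 1) : (S.NA hd hc).Y) = v := by
    apply hclose
    show dist (S.aN c m) (S.aN c (2 * Nat.pair e s + 1)) ≤ 1 / 2 ^ L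
    rw [dist_comm, hzm]
    exact pow_anti (by omega)
  have e3 : (S.aN c (2 * Nat.pair e s + 1) : (S.NA hd hc).Y) = S.aN c m :=
    F.injective (e2.trans e1.symm)
  rw [show S.aN c (2 * Nat.pair e s + 1) = S.aN c m from e3, dist_self] at hzm
  have : (0:ℝ) < 1 / 2 ^ (s + 2) := by positivity
  linarith

/-- the requirement `e` finds a point if `e` codes a homeomorphism -/
theorem exists_ev {S : Sys} {A : ℕ → Bool} {α : ℕ → List Bool}
    (hlim : ∀ n, ∃ k₀, ∀ k ≥ k₀, (α k).getD n false = A n)
    {F : (S.NA hd hc).Y ≃ₜ (MA hd hc).Y}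
    {e : ℕ} (h1 : RnO A (S.NA hd hc) (MA hd hc) F e.unpair.1) :
    ∃ s m, evA (α s) e s = some m := by
  classical
  -- the points which must be avoided
  let T : Set (S.NA hd hc).Y := (fun i => (S.aN c (2 * i) : (S.NA hd hc).Y)) '' Set.Iic e ∪
    {z | ∃ e' ≤ e, z.1 = (c (S.iN e'), S.hN e')}
  have hS : T.Finite := by
    apply Set.Finite.union ((Set.finite_Iic e).image _)
    have h3 : {z : (S.NA hd hc).Y | ∃ e' ≤ e, z.1 = (c (S.iN e'), S.hN e')} ⊆
        Subtype.val ⁻¹' ((fun e' => (c (S.iN e'), S.hN e')) '' Set.Iic e) := by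
      rintro z ⟨e', he', hz⟩
      exact ⟨e', he', hz.symm⟩
    exact (((Set.finite_Iic e).image _).preimage Subtype.val_injective.injOn).subset h3
  have hinj : Function.Injective fun k : ℕ =>
      F.symm (aM c (2 * Nat.pair e k + 1) : (MA hd hc).Y) := by
    intro k k' hk
    have h3 := F.symm.injective hk
    have h4 := aM_inj h3
    exact (Nat.pair_eq_pair.1 h4).2
  obtain ⟨k, hk⟩ : ∃ k, F.symm (aM c (2 * Nat.pair e k + 1) : (MA hd hc).Y) ∉ T := by
    by_contra hcon
    push Not at hcon
    exact Set.infinite_range_of_injective hinj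
      (hS.subset (Set.range_subset_iff.2 hcon))
  set v : (MA hd hc).Y := aM c (2 * Nat.pair e k + 1) with hv
  -- `F.symm v` is isolated, so it is one of the points of the dense sequence
  have hopen : IsOpen ({F.symm v} : Set (S.NA hd hc).Y) := by
    have h3 : IsOpen ({v} : Set (MA hd hc).Y) := by
      rw [Metric.isOpen_iff]
      intro z hz
      rw [Set.mem_singleton_iff] at hz
      subst hz
      refine ⟨1 / 2 ^ (Nat.pair e k + 1), by positivity, ?_⟩
      intro z hz
      exact aM_iso hz
    have h4 : ({F.symm v} : Set (S.NA hd hc).Y) = F ⁻¹' {v} := by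
      ext z
      simp only [Set.mem_singleton_iff, Set.mem_preimage]
      constructor
      · rintro rfl; exact F.apply_symm_apply v
      · intro hz
        rw [← hz, F.symm_apply_apply]
    rw [h4]
    exact h3.preimage F.continuous
  obtain ⟨m, hm0⟩ := (S.NA hd hc).dense.exists_mem_open hopen ⟨_, rfl⟩
  have hm : (S.aN c m : (S.NA hd hc).Y) = F.symm v := hm0
  have hname : IsName (S.NA hd hc) (fun _ => m) (F.symm v) := by
    intro j
    have : dist ((S.NA hd hc).c m) (F.symm v) = 0 := by
      rw [← hm]
      exact dist_self _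
    rw [this]
    positivity
  obtain ⟨r, hrn, hrs, hrt⟩ := h1 _ _ hname
  rw [F.apply_symm_apply] at hrn
  obtain ⟨L₀, hL₀⟩ := hrt (Nat.pair e k + 2)
  have hr : r (Nat.pair e k + 2) = 2 * Nat.pair e k + 1 := by
    have h3 := hrn (Nat.pair e k + 2)
    have h4 : (aM c (r (Nat.pair e k + 2)) : (MA hd hc).Y) = aM c (2 * Nat.pair e k + 1) := by
      refine aM_iso (lt_of_le_of_lt (b := 1 / 2 ^ (Nat.pair e k + 2)) h3 ?_)
      rw [show Nat.pair e k + 2 = (Nat.pair e k + 1) + 1 by ring]
      have h5 := pow_split (Nat.pair e k + 1)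
      have h6 : (0:ℝ) < 1 / 2 ^ (Nat.pair e k + 1 + 1) := by positivity
      linarith
    rcases Nat.even_or_odd' (r (Nat.pair e k + 2)) with ⟨j, hj | hj⟩
    · exfalso
      have h5 : (aM c (r (Nat.pair e k + 2))).1.2 = (aM c (2 * Nat.pair e k + 1)).1.2 :=
        congrArg (fun p => p.1.2) h4
      rw [hj, aM_even, aM_odd] at h5
      have : (0:ℝ) < 1 / 2 ^ Nat.pair e k := by positivity
      exact absurd h5 this.ne
    · rw [hj] at h4 ⊢
      rw [aM_inj h4]
  have hfresh : fresh e m = true := by
    rw [fresh_iff]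
    rcases cases_index m with ⟨i, hi⟩ | ⟨e', s', hi⟩
    · left
      refine ⟨by omega, ?_⟩
      by_contra hcon
      apply hk
      left
      refine ⟨i, by rw [Set.mem_Iic]; omega, ?_⟩
      rw [← hm, hi]
    · right
      have h3 : m / 2 = Nat.pair e' s' := by omega
      refine ⟨by omega, ?_⟩
      rw [h3, Nat.unpair_pair]
      by_contra hcon
      push Not at hcon
      apply hk
      cases ha : S.act e' s' with
      | some m' =>
        right
        refine ⟨e', hcon, ?_⟩
        rw [S.iN_act ha, S.hN_act ha, ← hm, hi]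
        rfl
      | none =>
        left
        refine ⟨e', hcon, ?_⟩
        rw [← hm, hi]
        apply Subtype.ext
        show (c (S.nd (2 * e')).1, lh (S.nd (2 * e')).2) =
          (c (S.nd (2 * Nat.pair e' s' + 1)).1, lh (S.nd (2 * Nat.pair e' s' + 1)).2)
        rw [S.nd_even, S.nd_not_act ha]
  set L := max L₀ (m + 1) with hL
  -- the oracle is right on the first `L` bits
  obtain ⟨t, ht⟩ : ∃ t, ∀ k ≥ t, ∀ n < L, (α k).getD n false = A n := by
    choose T hT using hlim
    refine ⟨(Finset.range L).sup T, fun k hk n hn => ?_⟩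
    exact hT n k (le_trans (Finset.le_sup (Finset.mem_range.2 hn)) hk)
  have hst : t ≤ Nat.pair k (Nat.pair m (Nat.pair L t)) :=
    le_trans (Nat.right_le_pair _ _) (le_trans (Nat.right_le_pair _ _) (Nat.right_le_pair _ _))
  have hal := ht _ hst
  set a := α (Nat.pair k (Nat.pair m (Nat.pair L t))) with hadef
  refine ⟨Nat.pair k (Nat.pair m (Nat.pair L t)), m, ?_⟩
  rw [← hadef]
  unfold evA
  simp only [Nat.unpair_pair]
  rw [if_pos]
  refine ⟨?_, hfresh, ?_⟩
  · have hpre : List.replicate L m = pre (fun _ => m) L := by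
      unfold pre
      rw [List.map_const', List.length_range]
    rw [hpre, dec_pre hal, hL₀ L (le_max_left _ _), hr]
  · have h3 := Nat.right_le_pair k (Nat.pair m (Nat.pair L t))
    have h4 := Nat.right_le_pair m (Nat.pair L t)
    have h5 := le_max_right L₀ (m + 1)
    have h6 := Nat.left_le_pair L t
    omega

omit [CompleteSpace Y] in
/-- two presentations without a homeomorphism computable with the oracle `A` -/
theorem caseA1 [CompleteSpace Y] [Infinite Y] (hd : DenseRange c) (hinj : Function.Injective c)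
    (hc : CR fun p : ℕ × ℕ => dist (c p.1) (c p.2)) (hiso : Dense {y : Y | IsOpen ({y} : Set Y)})
    {A : ℕ → Bool} (hA : LowCE A) :
    ∃ M N : CMS, Nonempty (M.Y ≃ₜ Y) ∧ Nonempty (N.Y ≃ₜ Y) ∧
      ∀ h : M.Y ≃ₜ N.Y, ¬ CompMapO A M N h := by
  obtain ⟨α, hα⟩ := hA.apx proc primrec_proc.to_comp
  set S := sys α hα.comp with hS
  refine ⟨S.NA hd hc, MA hd hc, ?_, ?_, ?_⟩
  · exact twin hd hinj hiso S.iN_finite S.hN_nonneg S.hN_lim
  · refine twin hd hinj hiso (fun n => ?_) (fun e => by positivity) pow_lim
    exact (Set.finite_singleton n).subset fun e he => he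
  · intro F hF
    obtain ⟨f, hf⟩ := rnO_of_comp hF
    have hrun : ∀ r, RnO A (S.NA hd hc) (MA hd hc) F (Nat.pair f r).unpair.1 := by
      intro r; rw [Nat.unpair_pair]; exact hf
    obtain ⟨s, hs1, hs2⟩ := hα.low f (fun K => by
      obtain ⟨s, m, hsm⟩ := exists_ev hα.lim (hrun K)
      obtain ⟨s', m', h⟩ := act_of_ev (hα := hα.comp) hsm
      refine ⟨s', ?_, proc_iff.2 ⟨_, m', ?_, h⟩⟩
      · exact le_trans (Nat.right_le_pair _ _) ((sys α hα.comp).act_le h)
      · rw [Nat.unpair_pair])
    obtain ⟨E, m, hE, hact⟩ := (proc_iff (hα := hα.comp)).1 hs1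
    have hf' : RnO A (S.NA hd hc) (MA hd hc) F E.unpair.1 := by
      rw [hE]; exact hf
    exact not_act hf' s m hs2 hact (sys_act.1 hact).2

end Pool.Agent.H109R3.LA.One
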