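import Pool.Agent.H109R3.LA.Assemble
import Pool.Agent.H109R3.LA.Main1
import Pool.Agent.H938R3.TD.BPair

/-!
The final statement, one-sided version.
-/

namespace Pool.Agent.H109R3.LA

open Pool.Agent.Helper583.TT (CMS CR cr_of_comp dense_of_range)
open Pool.Agent.Helper583.TC (Red orc)
open Pool.Agent.H938R3.TC (CompMapO LowCE)
open Pool.Agent.H109R3.TC (CompMapIn CatBoth Cat)

theorem not_cat {A : ℕ → Bool} (hA : LowCE A) (X : Type) [TopologicalSpace X]
    [Infinite X] (hX : ∃ M : CMS, Nonempty (M.Y ≃ₜ X)) : ¬ Cat X (ch A) := by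
  intro hcat
  obtain ⟨M₀, ⟨i₀⟩⟩ := hX
  have : Infinite M₀.Y := Infinite.of_injective i₀.symm i₀.symm.injective
  have hc := cr_of_comp M₀
  obtain ⟨g, hg, hinj, hr⟩ := Pool.Agent.Helper583.TT.TTInj.exists_inj M₀.c M₀.dense hc
  have hd : DenseRange fun n => M₀.c (g n) := dense_of_range hr M₀.dense
  have hc' : CR fun p : ℕ × ℕ => dist (M₀.c (g p.1)) (M₀.c (g p.2)) :=
    hc.comp ((hg.comp Computable.fst).pair (hg.comp Computable.snd) :
      Computable fun p : ℕ × ℕ => (g p.1, g p.2))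
  obtain ⟨M, N, ⟨iM⟩, ⟨iN⟩, hMN⟩ : ∃ M N : CMS, Nonempty (M.Y ≃ₜ M₀.Y) ∧
      Nonempty (N.Y ≃ₜ M₀.Y) ∧
      ∀ h : M.Y ≃ₜ N.Y, ¬ CompMapO A M N h := by
    by_cases hiso : Dense {y : M₀.Y | IsOpen ({y} : Set M₀.Y)}
    · exact One.caseA1 hd hinj hc' hiso hA
    · exact Pool.Agent.H938R3.TD.caseB1 hd hinj hc' hiso hA
  obtain ⟨h, h1⟩ := hcat M N ⟨iM.trans i₀⟩ ⟨iN.trans i₀⟩
  exact hMN h (compMapO_of h1)

theorem not_red_zero {A : ℕ → Bool} (hA : LowCE A) : ¬ Red (ch A) (fun _ => 0) := by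
  intro h1
  have hnc : ¬ Computable A := hA.nc
  apply hnc
  have h2 : Nat.Partrec (orc (ch A)) := by
    refine Nat.RecursiveIn.partrec_of_oracle ?_ h1
    intro g hg
    rw [Set.mem_singleton_iff] at hg
    subst hg
    exact Nat.Partrec.zero
  have h3 : Computable (ch A) := by
    have h4 : Partrec (orc (ch A)) := Partrec.nat_iff.2 h2
    exact h4
  have h5 : Computable fun n => decide (ch A n = 1) := by
    have h6 : Computable₂ fun a b : ℕ => decide (a = b) := Primrec.eq.decide.to_comp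
    exact h6.comp h3 (Computable.const 1)
  refine h5.of_eq fun n => ?_
  unfold ch
  cases A n <;> simp

theorem final1 {A : ℕ → Bool} (hA : LowCE A) :
    REPred (fun n => A n = true) ∧ ¬ ComputablePred (fun n => A n = true) ∧
    (∀ (X : Type) [TopologicalSpace X] [Infinite X], (∃ M : CMS, Nonempty (M.Y ≃ₜ X)) →
      ¬ Cat X (ch A)) ∧
    (∀ (X : Type) [TopologicalSpace X], (∃ M : CMS, Nonempty (M.Y ≃ₜ X)) →
      ¬ (Cat X (ch A) ∧ ∀ a : ℕ → ℕ, Cat X a → Red (ch A) a)) ∧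
    (∀ (X : Type) [TopologicalSpace X], (∃ M : CMS, Nonempty (M.Y ≃ₜ X)) →
      ¬ (CatBoth X (ch A) ∧ ∀ a : ℕ → ℕ, CatBoth X a → Red (ch A) a)) := by
  have hnc : ¬ Computable A := hA.nc
  have hnp : ¬ ComputablePred (fun n => A n = true) := by
    rintro ⟨_, hp⟩
    apply hnc
    refine hp.of_eq fun n => ?_
    rw [Bool.eq_iff_iff, decide_eq_true_iff]
  refine ⟨hA.re, hnp, fun X _ _ hX => not_cat hA X hX, fun X _ hX h => ?_, fun X _ hX h => ?_⟩
  · rcases finite_or_infinite X with hfin | hinf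
    · exact not_red_zero hA (h.2 (fun _ => 0) (catBoth_of_finite X _).cat)
    · exact not_cat hA X hX h.1
  · rcases finite_or_infinite X with hfin | hinf
    · exact not_red_zero hA (h.2 (fun _ => 0) (catBoth_of_finite X _))
    · exact not_cat hA X hX h.1.cat

end Pool.Agent.H109R3.LA
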