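import Mathlib

/-!
Finite injury: a noncomputable c.e. set with an enumeration such that every process of a primitive
recursive family which fires infinitely often fires at a true stage.
-/

namespace Pool.Agent.H109R3.LA

open Nat.Partrec (Code)
open Nat.Partrec.Code (evaln)

variable (V : ℕ → List ℕ → Bool)

theorem re_ex {f : ℕ → ℕ → Bool} (hf : Computable₂ f) : REPred fun a => ∃ n, f a n = true := by
  refine ((Partrec.rfind hf.partrec₂).dom_re).of_eq ?_
  intro z
  refine Iff.trans (Nat.rfind_dom (p := fun s => (Part.some (f z s) : Part Bool))) ?_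
  constructor
  · rintro ⟨s, hs, _⟩
    rw [Part.mem_some_iff] at hs
    exact ⟨s, hs.symm⟩
  · rintro ⟨s, hs⟩
    exact ⟨s, by rw [hs]; exact Part.mem_some _, fun {m} _ => trivial⟩

/-- `n + 1` is an entry of `l` -/
def memb (l : List ℕ) (n : ℕ) : Bool := l.any fun x => decide (x = n + 1)

theorem memb_iff {l : List ℕ} {n : ℕ} : memb l n = true ↔ n + 1 ∈ l := by
  unfold memb
  rw [List.any_eq_true]
  simp

theorem primrec_memb : Primrec₂ memb := by
  have h1 : PrimrecRel fun (x : ℕ) (n : ℕ) => decide (x = n + 1) = true :=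
    Primrec.eq.comp (Primrec.eq.comp Primrec.fst (Primrec.succ.comp Primrec.snd)).decide
      (Primrec.const true)
  have h2 : PrimrecRel fun (l : List ℕ) (n : ℕ) => ∃ x ∈ l, decide (x = n + 1) = true :=
    h1.exists_mem_list
  obtain ⟨_, h3⟩ := h2
  show Primrec fun p : List ℕ × ℕ => memb p.1 p.2
  refine h3.of_eq fun p => ?_
  unfold memb
  rw [Bool.eq_iff_iff, decide_eq_true_iff, List.any_eq_true]

/-- one step of the restraint -/
def rsStep (c x : ℕ) (H : List ℕ) (r : Option ℕ) : Option ℕ :=
  if r.isSome = true ∧ (x = 0 ∨ r.getD 0 < x) then r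
  else if V c (x :: H) = true then some (H.length + 1) else none

/-- the restraint of the process `c` after the history `H` -/
def rs (c : ℕ) : List ℕ → Option ℕ
  | [] => if V c [] = true then some 0 else none
  | x :: H => rsStep V c x H (rs c H)

/-- the test for the number `n` -/
def tst (H : List ℕ) (n : ℕ) : Bool :=
  H.all (fun x => decide (x = 0) || !decide ((x - 1).unpair.1 = n.unpair.1)) &&
  ((List.range (n.unpair.1 + 1)).all (fun c => decide ((rs V c H).getD 0 ≤ n)) &&
  decide (evaln H.length (Denumerable.ofNat Code n.unpair.1) n = some 0))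

/-- the number enumerated after the history `H` (`n + 1` codes `n`, `0` codes nothing) -/
def nxt (H : List ℕ) : ℕ :=
  if tst V H H.length.unpair.1 = true then H.length.unpair.1 + 1 else 0

/-- the history of the enumeration -/
def Hs : ℕ → List ℕ
  | 0 => []
  | s + 1 => nxt V (Hs s) :: Hs s

/-! ### Computability -/

theorem primrec_rs (hV : Primrec₂ V) : Primrec₂ (rs V) := by
  have h : Primrec fun p : ℕ × List ℕ =>
      (List.recOn p.2 (if V p.1 [] = true then some 0 else none)
        fun x H IH => rsStep V p.1 x H IH : Option ℕ) := by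
    refine Primrec.list_rec (f := fun p : ℕ × List ℕ => p.2)
      (g := fun p : ℕ × List ℕ => if V p.1 [] = true then some 0 else none)
      (h := fun (p : ℕ × List ℕ) (q : ℕ × List ℕ × Option ℕ) => rsStep V p.1 q.1 q.2.1 q.2.2)
      Primrec.snd ?_ ?_
    · exact Primrec.ite (Primrec.eq.comp (hV.comp Primrec.fst (Primrec.const []))
        (Primrec.const true)) (Primrec.const _) (Primrec.const _)
    · have hc : Primrec fun a : (ℕ × List ℕ) × (ℕ × List ℕ × Option ℕ) => a.1.1 :=
        Primrec.fst.comp Primrec.fst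
      have hx : Primrec fun a : (ℕ × List ℕ) × (ℕ × List ℕ × Option ℕ) => a.2.1 :=
        Primrec.fst.comp Primrec.snd
      have hH : Primrec fun a : (ℕ × List ℕ) × (ℕ × List ℕ × Option ℕ) => a.2.2.1 :=
        Primrec.fst.comp (Primrec.snd.comp Primrec.snd)
      have hr : Primrec fun a : (ℕ × List ℕ) × (ℕ × List ℕ × Option ℕ) => a.2.2.2 :=
        Primrec.snd.comp (Primrec.snd.comp Primrec.snd)
      show Primrec fun a : (ℕ × List ℕ) × (ℕ × List ℕ × Option ℕ) =>
        rsStep V a.1.1 a.2.1 a.2.2.1 a.2.2.2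
      unfold rsStep
      refine Primrec.ite (PrimrecPred.and ?_ (PrimrecPred.or ?_ ?_)) hr (Primrec.ite ?_ ?_
        (Primrec.const none))
      · exact Primrec.eq.comp (Primrec.option_isSome.comp hr) (Primrec.const true)
      · exact Primrec.eq.comp hx (Primrec.const 0)
      · exact Primrec.nat_lt.comp (Primrec.option_getD.comp hr (Primrec.const 0)) hx
      · exact Primrec.eq.comp (hV.comp hc (Primrec.list_cons.comp hx hH)) (Primrec.const true)
      · exact Primrec.option_some.comp (Primrec.succ.comp (Primrec.list_length.comp hH))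
  refine Primrec.of_eq h fun p => ?_
  obtain ⟨c, l⟩ := p
  induction l with
  | nil => rfl
  | cons x H ih =>
    show rsStep V c x H _ = rsStep V c x H (rs V c H)
    exact congrArg (rsStep V c x H) ih

theorem primrec_tst (hV : Primrec₂ V) : Primrec₂ (tst V) := by
  show Primrec fun p : List ℕ × ℕ => tst V p.1 p.2
  unfold tst
  have hi : Primrec fun p : List ℕ × ℕ => p.2.unpair.1 :=
    Primrec.fst.comp (Primrec.unpair.comp Primrec.snd)
  refine Primrec.and.comp ?_ (Primrec.and.comp ?_ ?_)
  · have hR : PrimrecRel fun (x : ℕ) (p : List ℕ × ℕ) =>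
        (decide (x = 0) || !decide ((x - 1).unpair.1 = p.2.unpair.1)) = true := by
      have h1 : Primrec fun q : ℕ × List ℕ × ℕ => decide (q.1 = 0) :=
        (Primrec.eq.comp Primrec.fst (Primrec.const 0)).decide
      have h2 : Primrec fun q : ℕ × List ℕ × ℕ =>
          decide ((q.1 - 1).unpair.1 = q.2.2.unpair.1) :=
        (Primrec.eq.comp (Primrec.fst.comp (Primrec.unpair.comp (Primrec.pred.comp Primrec.fst)))
          (Primrec.fst.comp (Primrec.unpair.comp (Primrec.snd.comp Primrec.snd)))).decide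
      exact Primrec.eq.comp (Primrec.or.comp h1 (Primrec.not.comp h2)) (Primrec.const true)
    have h2 : PrimrecRel fun (n : List ℕ) (p : List ℕ × ℕ) => ∀ x ∈ n,
        (decide (x = 0) || !decide ((x - 1).unpair.1 = p.2.unpair.1)) = true :=
      hR.forall_mem_list
    obtain ⟨_, h3⟩ := PrimrecRel.comp h2 Primrec.fst Primrec.id
    refine h3.of_eq fun p => ?_
    rw [Bool.eq_iff_iff, decide_eq_true_iff, List.all_eq_true]
    rfl
  · have hR : PrimrecRel fun (c : ℕ) (p : List ℕ × ℕ) =>
        decide ((rs V c p.1).getD 0 ≤ p.2) = true := by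
      have h1 : Primrec fun q : ℕ × List ℕ × ℕ => decide ((rs V q.1 q.2.1).getD 0 ≤ q.2.2) :=
        (Primrec.nat_le.comp (Primrec.option_getD.comp ((primrec_rs V hV).comp Primrec.fst
          (Primrec.fst.comp Primrec.snd)) (Primrec.const 0))
          (Primrec.snd.comp Primrec.snd)).decide
      exact Primrec.eq.comp h1 (Primrec.const true)
    have h2 : PrimrecRel fun (n : List ℕ) (p : List ℕ × ℕ) => ∀ c ∈ n,
        decide ((rs V c p.1).getD 0 ≤ p.2) = true := hR.forall_mem_list
    obtain ⟨_, h3⟩ := PrimrecRel.comp h2 (Primrec.list_range.comp (Primrec.succ.comp hi))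
      Primrec.id
    refine h3.of_eq fun p => ?_
    rw [Bool.eq_iff_iff, decide_eq_true_iff, List.all_eq_true]
    rfl
  · refine (Primrec.eq.comp ?_ (Primrec.const (some 0))).decide
    exact Nat.Partrec.Code.primrec_evaln.comp (((Primrec.list_length.comp Primrec.fst).pair
      ((Primrec.ofNat Code).comp hi)).pair Primrec.snd)

theorem primrec_nxt (hV : Primrec₂ V) : Primrec (nxt V) := by
  unfold nxt
  have h : Primrec fun H : List ℕ => H.length.unpair.1 :=
    Primrec.fst.comp (Primrec.unpair.comp Primrec.list_length)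
  exact Primrec.ite (Primrec.eq.comp ((primrec_tst V hV).comp Primrec.id h) (Primrec.const true))
    (Primrec.succ.comp h) (Primrec.const 0)

theorem primrec_Hs (hV : Primrec₂ V) : Primrec (Hs V) := by
  have h : Primrec fun n : ℕ => (Nat.rec [] (fun _ l => nxt V l :: l) n : List ℕ) := by
    refine Primrec.nat_rec' (f := fun n : ℕ => n) (g := fun _ : ℕ => ([] : List ℕ))
      (h := fun (_ : ℕ) (q : ℕ × List ℕ) => nxt V q.2 :: q.2)
      Primrec.id (Primrec.const []) ?_
    exact Primrec.list_cons.comp ((primrec_nxt V hV).comp (Primrec.snd.comp Primrec.snd))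
      (Primrec.snd.comp Primrec.snd)
  refine h.of_eq fun n => ?_
  induction n with
  | zero => rfl
  | succ k ih => exact congrArg (fun l => nxt V l :: l) ih

/-! ### The enumeration -/

theorem Hs_length (s : ℕ) : (Hs V s).length = s := by
  induction s with
  | zero => rfl
  | succ s ih => simp [Hs, ih]

theorem Hs_mono {s s' x : ℕ} (h : s ≤ s') (hx : x ∈ Hs V s) : x ∈ Hs V s' := by
  induction s', h using Nat.le_induction with
  | base => exact hx
  | succ n _ ih => exact List.mem_cons_of_mem _ ih

theorem mem_Hs {s x : ℕ} : x ∈ Hs V s ↔ ∃ t < s, nxt V (Hs V t) = x := by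
  induction s with
  | zero => simp [Hs]
  | succ s ih =>
    rw [Hs, List.mem_cons, ih]
    constructor
    · rintro (h | ⟨t, ht, h⟩)
      · exact ⟨s, by omega, h.symm⟩
      · exact ⟨t, by omega, h⟩
    · rintro ⟨t, ht, h⟩
      rcases Nat.lt_succ_iff_lt_or_eq.1 ht with h1 | h1
      · exact Or.inr ⟨t, h1, h⟩
      · left; rw [← h1]; exact h.symm

theorem nxt_spec {s n : ℕ} (h : nxt V (Hs V s) = n + 1) :
    (∀ t < s, nxt V (Hs V t) = 0 ∨ (nxt V (Hs V t) - 1).unpair.1 ≠ n.unpair.1) ∧
    (∀ c ≤ n.unpair.1, (rs V c (Hs V s)).getD 0 ≤ n) ∧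
    evaln s (Denumerable.ofNat Code n.unpair.1) n = some 0 := by
  unfold nxt at h
  split at h
  · rename_i h1
    rw [Hs_length] at h1 h
    have h2 : s.unpair.1 = n := by omega
    rw [h2] at h1
    unfold tst at h1
    rw [Bool.and_eq_true, Bool.and_eq_true, List.all_eq_true, List.all_eq_true,
      decide_eq_true_iff, Hs_length] at h1
    refine ⟨fun t ht => ?_, fun c hc => ?_, h1.2.2⟩
    · have := h1.1 (nxt V (Hs V t)) ((mem_Hs V).2 ⟨t, ht, rfl⟩)
      rw [Bool.or_eq_true, decide_eq_true_iff] at this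
      simpa using this
    · have := h1.2.1 c (List.mem_range.2 (by omega))
      simpa using this
  · simp at h

theorem nxt_of {s n : ℕ} (hs : s.unpair.1 = n)
    (h1 : ∀ t < s, nxt V (Hs V t) = 0 ∨ (nxt V (Hs V t) - 1).unpair.1 ≠ n.unpair.1)
    (h2 : ∀ c ≤ n.unpair.1, (rs V c (Hs V s)).getD 0 ≤ n)
    (h3 : evaln s (Denumerable.ofNat Code n.unpair.1) n = some 0) :
    nxt V (Hs V s) = n + 1 := by
  unfold nxt
  rw [Hs_length, hs, if_pos]
  unfold tst
  rw [Bool.and_eq_true, Bool.and_eq_true, List.all_eq_true, List.all_eq_true,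
      decide_eq_true_iff, Hs_length]
  refine ⟨fun x hx => ?_, fun c hc => ?_, h3⟩
  · obtain ⟨t, ht, rfl⟩ := (mem_Hs V).1 hx
    rw [Bool.or_eq_true, decide_eq_true_iff]
    simpa using h1 t ht
  · have := h2 c (by have := List.mem_range.1 hc; omega)
    simpa using this

/-- after some stage the requirement `i` does not act -/
theorem ev_quiet (i : ℕ) : ∃ s₀, ∀ s ≥ s₀, nxt V (Hs V s) = 0 ∨
    (nxt V (Hs V s) - 1).unpair.1 ≠ i := by
  by_cases h : ∃ s n, nxt V (Hs V s) = n + 1 ∧ n.unpair.1 = i
  · obtain ⟨s, n, h1, h2⟩ := h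
    refine ⟨s + 1, fun s' hs' => ?_⟩
    by_cases h0 : nxt V (Hs V s') = 0
    · exact Or.inl h0
    · right
      obtain ⟨n', hn'⟩ := Nat.exists_eq_succ_of_ne_zero h0
      have h3 := (nxt_spec V hn').1 s hs'
      rw [h1] at h3
      rw [hn']
      intro h4
      rcases h3 with h3 | h3
      · omega
      · apply h3
        simp only [Nat.add_sub_cancel, Nat.succ_eq_add_one] at h4 ⊢
        rw [h2, h4]
  · refine ⟨0, fun s _ => ?_⟩
    by_contra hcon
    push Not at hcon
    obtain ⟨n', hn'⟩ := Nat.exists_eq_succ_of_ne_zero hcon.1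
    apply h
    refine ⟨s, n', hn', ?_⟩
    rw [← hcon.2, hn']
    simp

/-- after some stage the process `c` is not injured -/
theorem ev_uninj (c : ℕ) : ∃ s₀, ∀ s ≥ s₀, nxt V (Hs V s) = 0 ∨
    c ≤ (nxt V (Hs V s) - 1).unpair.1 := by
  choose f hf using ev_quiet V
  refine ⟨(Finset.range c).sup f, fun s hs => ?_⟩
  by_contra hcon
  push Not at hcon
  have h1 := hf (nxt V (Hs V s) - 1).unpair.1 s
    (le_trans (Finset.le_sup (Finset.mem_range.2 hcon.2)) hs)
  rcases h1 with h1 | h1
  · exact hcon.1 h1
  · exact h1 rfl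

theorem rs_stable {c s₀ : ℕ} (h0 : ∀ s ≥ s₀, nxt V (Hs V s) = 0 ∨
    c ≤ (nxt V (Hs V s) - 1).unpair.1) {s t : ℕ} (hs : s₀ ≤ s) (h : rs V c (Hs V s) = some t) :
    ∀ s' ≥ s, rs V c (Hs V s') = some t := by
  intro s' hs'
  induction s', hs' using Nat.le_induction with
  | base => exact h
  | succ k hk ih =>
    show rsStep V c (nxt V (Hs V k)) (Hs V k) (rs V c (Hs V k)) = some t
    rw [ih]
    unfold rsStep
    rw [if_pos]
    refine ⟨rfl, ?_⟩
    by_cases h1 : nxt V (Hs V k) = 0
    · exact Or.inl h1
    · right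
      obtain ⟨n, hn⟩ := Nat.exists_eq_succ_of_ne_zero h1
      have h2 := (nxt_spec V hn).2.1 c (by
        rcases h0 k (by omega) with h3 | h3
        · exact absurd h3 h1
        · rw [hn] at h3
          simpa using h3)
      rw [ih] at h2
      rw [hn]
      simp only [Option.getD_some] at h2 ⊢
      omega

theorem rs_true {c s t : ℕ} (h : rs V c (Hs V s) = some t) :
    V c (Hs V t) = true ∧ t ≤ s ∧ ∀ n < t, n + 1 ∈ Hs V s → n + 1 ∈ Hs V t := by
  induction s with
  | zero =>
    have h1 : (if V c [] = true then some 0 else none) = some t := h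
    split at h1
    · rename_i h2
      simp only [Option.some.injEq] at h1
      subst h1
      exact ⟨h2, le_rfl, fun n hn => by omega⟩
    · simp at h1
  | succ s ih =>
    have h1 : rsStep V c (nxt V (Hs V s)) (Hs V s) (rs V c (Hs V s)) = some t := h
    unfold rsStep at h1
    split at h1
    · rename_i h2
      obtain ⟨h3, h4, h5⟩ := ih h1
      refine ⟨h3, by omega, fun n hn hmem => ?_⟩
      rw [Hs, List.mem_cons] at hmem
      rcases hmem with hmem | hmem
      · exfalso
        rw [h1] at h2
        rcases h2.2 with h6 | h6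
        · omega
        · simp only [Option.getD_some] at h6
          omega
      · exact h5 n hn hmem
    · split at h1
      · rename_i h2
        simp only [Option.some.injEq, Hs_length] at h1
        subst h1
        exact ⟨h2, le_rfl, fun n _ h => h⟩
      · simp at h1

theorem rs_fire {c s : ℕ} (h : V c (Hs V s) = true) : ∃ t, rs V c (Hs V s) = some t := by
  cases s with
  | zero =>
    refine ⟨0, ?_⟩
    show (if V c [] = true then some 0 else none) = some 0
    exact if_pos h
  | succ s =>
    have h1 : rs V c (Hs V (s + 1)) =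
      rsStep V c (nxt V (Hs V s)) (Hs V s) (rs V c (Hs V s)) := rfl
    rw [h1]
    unfold rsStep
    split
    · rename_i h2
      exact Option.isSome_iff_exists.1 h2.1
    · have h' : V c (nxt V (Hs V s) :: Hs V s) = true := h
      rw [if_pos h']
      exact ⟨_, rfl⟩

open scoped Classical in
/-- the c.e. set -/
noncomputable def CA (n : ℕ) : Bool := decide (∃ s, n + 1 ∈ Hs V s)

theorem CA_iff {n : ℕ} : CA V n = true ↔ ∃ s, n + 1 ∈ Hs V s := by
  classical
  simp [CA]

/-- a process which fires infinitely often fires at a true stage -/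
theorem true_stage {c : ℕ} (h : ∀ K, ∃ s ≥ K, V c (Hs V s) = true) :
    ∃ t, V c (Hs V t) = true ∧ ∀ n < t, CA V n = true → n + 1 ∈ Hs V t := by
  obtain ⟨s₀, hs₀⟩ := ev_uninj V c
  obtain ⟨s, hs, hfire⟩ := h s₀
  obtain ⟨t, ht⟩ := rs_fire V hfire
  have hst := rs_stable V hs₀ hs ht
  refine ⟨t, (rs_true V ht).1, fun n hn hA => ?_⟩
  obtain ⟨s', hs'⟩ := (CA_iff V).1 hA
  exact (rs_true V (hst (max s s') (le_max_left _ _))).2.2 n hn
    (Hs_mono V (le_max_right _ _) hs')

/-- the restraints are bounded -/
theorem rs_bdd (c : ℕ) : ∃ s₁ R, ∀ s ≥ s₁, (rs V c (Hs V s)).getD 0 ≤ R := by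
  obtain ⟨s₀, hs₀⟩ := ev_uninj V c
  by_cases h : ∃ s ≥ s₀, ∃ t, rs V c (Hs V s) = some t
  · obtain ⟨s, hs, t, ht⟩ := h
    refine ⟨s, t, fun s' hs' => ?_⟩
    rw [rs_stable V hs₀ hs ht s' hs']
    simp
  · push Not at h
    refine ⟨s₀, 0, fun s hs => ?_⟩
    have h1 : rs V c (Hs V s) = none := by
      cases h2 : rs V c (Hs V s) with
      | none => rfl
      | some t => exact absurd h2 (h s hs t)
    rw [h1]
    simp

theorem CA_not_computable : ¬ Computable (CA V) := by
  intro hcomp
  have hp : Partrec fun n : ℕ => (Part.some (CA V n).toNat : Part ℕ) := by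
    have h1 : Computable fun n : ℕ => (CA V n).toNat :=
      (Computable.cond hcomp (Computable.const 1) (Computable.const 0)).of_eq fun n => by
        cases CA V n <;> rfl
    exact h1.partrec
  obtain ⟨cd, hcd⟩ := Code.exists_code.1 (Partrec.nat_iff.1 hp)
  have hev : ∀ n, cd.eval n = Part.some (CA V n).toNat := fun n => congrFun hcd n
  set i := Encodable.encode cd with hi
  have hof : Denumerable.ofNat Code i = cd := by rw [hi, Denumerable.ofNat_encode]
  by_cases hact : ∃ s n, nxt V (Hs V s) = n + 1 ∧ n.unpair.1 = i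
  · obtain ⟨s, n, h1, h2⟩ := hact
    have h3 := (nxt_spec V h1).2.2
    rw [h2, hof] at h3
    have h4 := Nat.Partrec.Code.evaln_sound (k := s) (c := cd) (n := n) (x := 0) h3
    rw [hev n, Part.mem_some_iff] at h4
    have h5 : CA V n = true := (CA_iff V).2 ⟨s + 1, by
      rw [Hs, List.mem_cons]; exact Or.inl h1.symm⟩
    rw [h5] at h4
    simp at h4
  · push Not at hact
    have hno : ∀ t, nxt V (Hs V t) = 0 ∨ (nxt V (Hs V t) - 1).unpair.1 ≠ i := by
      intro t
      by_contra hcon
      push Not at hcon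
      obtain ⟨n', hn'⟩ := Nat.exists_eq_succ_of_ne_zero hcon.1
      apply hact t n' hn'
      rw [← hcon.2, hn']
      simp
    choose f g hfg using rs_bdd V
    set s₁ := (Finset.range (i + 1)).sup f with hs₁
    set R := (Finset.range (i + 1)).sup g with hR
    set n := Nat.pair i R with hn
    have hRn : R ≤ n := Nat.right_le_pair i R
    have hni : n.unpair.1 = i := by rw [hn, Nat.unpair_pair]
    have hCA : CA V n = false := by
      cases h : CA V n with
      | false => rfl
      | true =>
        exfalso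
        obtain ⟨s, hs⟩ := (CA_iff V).1 h
        obtain ⟨t, -, ht⟩ := (mem_Hs V).1 hs
        exact hact t n ht hni
    have hmem : (0 : ℕ) ∈ cd.eval n := by
      rw [hev n, hCA]
      simp
    obtain ⟨k₀, hk₀⟩ := Nat.Partrec.Code.evaln_complete.1 hmem
    have hge := Nat.right_le_pair n (s₁ + k₀)
    have hx := nxt_of V (s := Nat.pair n (s₁ + k₀)) (n := n) (by rw [Nat.unpair_pair])
      (fun t _ => by rw [hni]; exact hno t)
      (fun c hc => by
        rw [hni] at hc
        have hc' : c ∈ Finset.range (i + 1) := Finset.mem_range.2 (by omega)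
        refine le_trans (hfg c _ ?_) (le_trans (Finset.le_sup (f := g) hc') hRn)
        exact le_trans (Finset.le_sup (f := f) hc') (by omega))
      (by
        rw [hni, hof]
        exact Nat.Partrec.Code.evaln_mono (by omega) hk₀)
    exact hact _ n hx hni

theorem CA_re (hV : Primrec₂ V) : REPred fun n => CA V n = true := by
  have h1 : Computable₂ fun n s : ℕ => memb (Hs V s) n :=
    (primrec_memb.comp ((primrec_Hs V hV).comp Primrec.snd) Primrec.fst).to_comp
  refine (re_ex h1).of_eq fun n => ?_
  rw [CA_iff]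
  simp only [memb_iff]

end Pool.Agent.H109R3.LA
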