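import Pool.Agent.H109R3.LA.Sys
import Pool.Agent.H938R3.TC.Defs

/-!
Dense isolated points: two presentations without a homeomorphism computable with a low c.e. oracle.
-/

namespace Pool.Agent.H109R3.LA

open Pool.Agent.Helper583.TT
open Pool.Agent.H938R3.TC
open Filter Topology
open Pool.Agent.Helper583.TC.J2 (srchO srchO_some srchO_ne primrec_srchO valsO valsO_succ
  primrec_valsO valsO_pre valsO_sound)

/-! ### Words with oracle -/

theorem dec_length (a : List Bool) (σ : List ℕ) : (dec a σ).length = σ.length := by simp [dec]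

theorem dec_pre {A : ℕ → Bool} {a : List Bool} {p : ℕ → ℕ} {L : ℕ}
    (ha : ∀ j < L, a.getD j false = A j) : dec a (pre p L) = pre (orc A p) L := by
  unfold dec
  rw [pre_length]
  unfold pre
  apply List.map_congr_left
  intro j hj
  rw [List.mem_range] at hj
  have h1 := pre_getD p hj
  unfold pre at h1
  rw [h1, ha j hj]
  rfl

theorem commitO {A : ℕ → Bool} {M N : CMS} {h : M.Y → N.Y} {c : ℕ} (hr : RnO A M N h c) (x : M.Y)
    {σ : List ℕ} (hσ : ∀ j < σ.length, dist (M.c (σ.getD j 0)) x ≤ 1 / 2 ^ j) {a : List Bool}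
    (ha : ∀ j < σ.length, a.getD j false = A j) {n m : ℕ}
    (hm : rn c (dec a σ) n = some m) : dist (N.c m) (h x) ≤ 1 / 2 ^ n := by
  obtain ⟨p, hp, hps⟩ := exists_name M x σ hσ
  obtain ⟨q, hq, hq1, -⟩ := hr x p hp
  have := hq1 σ.length n m (by rw [← dec_pre ha, hps]; exact hm)
  rw [this]
  exact hq n

/-! ### The event -/

/-- the requirement `e` finds at stage `s` an index near which a point can be added -/
def evA (a : List Bool) (e s : ℕ) : Option ℕ :=
  (valsO (rn e.unpair.1.unpair.2 (dec a (List.replicate s.unpair.2.unpair.2.unpair.1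
      (2 * Nat.pair e s.unpair.1 + 1)))) (s.unpair.2.unpair.1 + 3)).bind fun qs =>
      if rn e.unpair.1.unpair.1 (dec a (qs.tail.take s.unpair.2.unpair.1))
          (Nat.pair e s.unpair.1 + 2) = some (2 * Nat.pair e s.unpair.1 + 1) ∧
        fresh e (qs.getD (s.unpair.2.unpair.1 + 2) 0) = true ∧
        qs.getD (s.unpair.2.unpair.1 + 2) 0 < s
      then some (qs.getD (s.unpair.2.unpair.1 + 2) 0) else none

theorem evA_spec {a : List Bool} {e s m : ℕ} (h : evA a e s = some m) : ∃ qs,
    valsO (rn e.unpair.1.unpair.2 (dec a (List.replicate s.unpair.2.unpair.2.unpair.1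
      (2 * Nat.pair e s.unpair.1 + 1)))) (s.unpair.2.unpair.1 + 3) = some qs ∧
    rn e.unpair.1.unpair.1 (dec a (qs.tail.take s.unpair.2.unpair.1))
      (Nat.pair e s.unpair.1 + 2) = some (2 * Nat.pair e s.unpair.1 + 1) ∧ fresh e m = true ∧
      m < s ∧ m = qs.getD (s.unpair.2.unpair.1 + 2) 0 := by
  unfold evA at h
  rw [Option.bind_eq_some_iff] at h
  obtain ⟨qs, h1, h2⟩ := h
  split at h2
  · rename_i h3
    simp only [Option.some.injEq] at h2
    refine ⟨qs, h1, h3.1, ?_, ?_, h2.symm⟩
    · rw [← h2]; exact h3.2.1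
    · rw [← h2]; exact h3.2.2
  · simp at h2

theorem primrec_dec {α : Type} [Primcodable α] {a : α → List Bool} {σ : α → List ℕ}
    (ha : Primrec a) (hσ : Primrec σ) : Primrec fun x => dec (a x) (σ x) := by
  unfold dec
  refine Primrec.list_map (Primrec.list_range.comp (Primrec.list_length.comp hσ)) ?_
  have hb : Primrec fun b : Bool => b.toNat :=
    (Primrec.cond Primrec.id (Primrec.const 1) (Primrec.const 0)).of_eq fun b => by
      cases b <;> rfl
  refine Primrec₂.natPair.comp ?_ (hb.comp ?_)
  · exact (Primrec.list_getD 0).comp (hσ.comp Primrec.fst) Primrec.snd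
  · exact (Primrec.list_getD false).comp (ha.comp Primrec.fst) Primrec.snd

theorem primrec_evA : Primrec fun p : List Bool × ℕ × ℕ => evA p.1 p.2.1 p.2.2 := by
  have hu : ∀ {α : Type} [Primcodable α] {f : α → ℕ}, Primrec f → Primrec fun a => (f a).unpair.1 :=
    fun hf => Primrec.fst.comp (Primrec.unpair.comp hf)
  have hv : ∀ {α : Type} [Primcodable α] {f : α → ℕ}, Primrec f → Primrec fun a => (f a).unpair.2 :=
    fun hf => Primrec.snd.comp (Primrec.unpair.comp hf)
  have hval : ∀ {α : Type} [Primcodable α] {e s : α → ℕ}, Primrec e → Primrec s →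
      Primrec fun a => 2 * Nat.pair (e a) (s a).unpair.1 + 1 := fun he hs =>
    Primrec.nat_double_succ.comp (Primrec₂.natPair.comp he (hu hs))
  unfold evA
  refine Primrec.option_bind ?_ ?_
  · refine primrec_valsO (f := fun p : List Bool × ℕ × ℕ => rn p.2.1.unpair.1.unpair.2
      (dec p.1 (List.replicate p.2.2.unpair.2.unpair.2.unpair.1
        (2 * Nat.pair p.2.1 p.2.2.unpair.1 + 1)))) ?_ ?_
    · have ha : Primrec fun q : (List Bool × ℕ × ℕ) × ℕ => q.1.1 := Primrec.fst.comp Primrec.fst
      have he : Primrec fun q : (List Bool × ℕ × ℕ) × ℕ => q.1.2.1 :=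
        Primrec.fst.comp (Primrec.snd.comp Primrec.fst)
      have hs : Primrec fun q : (List Bool × ℕ × ℕ) × ℕ => q.1.2.2 :=
        Primrec.snd.comp (Primrec.snd.comp Primrec.fst)
      refine primrec_rn (α := (List Bool × ℕ × ℕ) × ℕ) ?_ ?_ Primrec.snd
      · exact hv (hu he)
      · exact primrec_dec ha (primrec_replicate (hu (hv (hv hs))) (hval he hs))
    · exact Primrec.nat_add.comp (hu (hv (Primrec.snd.comp Primrec.snd))) (Primrec.const 3)
  · have ha : Primrec fun q : (List Bool × ℕ × ℕ) × List ℕ => q.1.1 :=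
      Primrec.fst.comp Primrec.fst
    have he : Primrec fun q : (List Bool × ℕ × ℕ) × List ℕ => q.1.2.1 :=
      Primrec.fst.comp (Primrec.snd.comp Primrec.fst)
    have hs : Primrec fun q : (List Bool × ℕ × ℕ) × List ℕ => q.1.2.2 :=
      Primrec.snd.comp (Primrec.snd.comp Primrec.fst)
    have hL : Primrec fun q : (List Bool × ℕ × ℕ) × List ℕ =>
        q.1.2.2.unpair.2.unpair.1 := hu (hv hs)
    have hget : Primrec fun q : (List Bool × ℕ × ℕ) × List ℕ =>
        q.2.getD (q.1.2.2.unpair.2.unpair.1 + 2) 0 :=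
      (Primrec.list_getD 0).comp Primrec.snd (Primrec.nat_add.comp hL (Primrec.const 2))
    refine Primrec.ite (α := (List Bool × ℕ × ℕ) × List ℕ) ?_ ?_ (Primrec.const none)
    · refine PrimrecPred.and ?_ (PrimrecPred.and ?_ ?_)
      · refine Primrec.eq.comp ?_ (Primrec.option_some.comp (hval he hs))
        refine primrec_rn (hu (hu he)) ?_ ?_
        · exact primrec_dec ha (Primrec.list_take.comp hL (Primrec.list_tail.comp Primrec.snd))
        · exact Primrec.nat_add.comp (Primrec₂.natPair.comp he (hu hs)) (Primrec.const 2)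
      · exact Primrec.eq.comp (primrec_fresh he hget) (Primrec.const true)
      · exact Primrec.nat_lt.comp hget hs
    · exact Primrec.option_some.comp hget

attribute [irreducible] evA

/-! ### The actions -/

/-- the action of the requirement `e` at the last stage of the history `H` -/
def actL (H : List (List Bool)) (e : ℕ) : Option ℕ :=
  if (List.range (H.length - 1)).all (fun j =>
      (evA (H.getD (H.length - 1 - j) []) e j).isNone) = true ∧ 0 < H.length then
    evA (H.getD 0 []) e (H.length - 1) else none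

theorem hst_length (α : ℕ → List Bool) (k : ℕ) : (hst α k).length = k := by
  induction k with
  | zero => rfl
  | succ k ih => simp [hst, ih]

theorem hst_getD (α : ℕ → List Bool) (k j : ℕ) (h : j < k) :
    (hst α k).getD (k - 1 - j) [] = α j := by
  induction k with
  | zero => omega
  | succ k ih =>
    by_cases hj : j = k
    · subst hj
      simp [hst]
    · have h1 : k + 1 - 1 - j = (k - 1 - j) + 1 := by omega
      rw [h1]
      show (hst α k).getD (k - 1 - j) [] = α j
      exact ih (by omega)

theorem actL_hst {α : ℕ → List Bool} {e s m : ℕ} :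
    actL (hst α (s + 1)) e = some m ↔
      (∀ j < s, evA (α j) e j = none) ∧ evA (α s) e s = some m := by
  unfold actL
  rw [hst_length, Nat.add_sub_cancel]
  have h0 : (hst α (s + 1)).getD 0 [] = α s := rfl
  rw [h0]
  have h1 : ((List.range s).all (fun j =>
      (evA ((hst α (s + 1)).getD (s - j) []) e j).isNone) = true ∧ 0 < s + 1) ↔
      ∀ j < s, evA (α j) e j = none := by
    rw [List.all_eq_true]
    constructor
    · rintro ⟨h, -⟩ j hj
      have := h j (List.mem_range.2 hj)
      rw [show s - j = s + 1 - 1 - j by omega, hst_getD α (s + 1) j (by omega)] at this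
      simpa using this
    · intro h
      refine ⟨fun j hj => ?_, by omega⟩
      rw [List.mem_range] at hj
      rw [show s - j = s + 1 - 1 - j by omega, hst_getD α (s + 1) j (by omega), h j hj]
      rfl
  by_cases hc : ∀ j < s, evA (α j) e j = none
  · rw [if_pos (h1.2 hc)]
    exact ⟨fun h => ⟨hc, h⟩, fun h => h.2⟩
  · rw [if_neg (fun h => hc (h1.1 h))]
    constructor
    · intro h; simp at h
    · intro h; exact absurd h.1 hc

theorem primrec_actL : Primrec₂ actL := by
  show Primrec fun p : List (List Bool) × ℕ => actL p.1 p.2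
  unfold actL
  have hlen : Primrec fun p : List (List Bool) × ℕ => p.1.length :=
    Primrec.list_length.comp Primrec.fst
  have hlen1 : Primrec fun p : List (List Bool) × ℕ => p.1.length - 1 :=
    Primrec.nat_sub.comp hlen (Primrec.const 1)
  refine Primrec.ite (PrimrecPred.and ?_ (Primrec.nat_lt.comp (Primrec.const 0) hlen)) ?_
    (Primrec.const none)
  · have hR : PrimrecRel fun (j : ℕ) (p : List (List Bool) × ℕ) =>
        (evA (p.1.getD (p.1.length - 1 - j) []) p.2 j).isNone = true := by
      have h0 : Primrec fun q : ℕ × List (List Bool) × ℕ =>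
          evA (q.2.1.getD (q.2.1.length - 1 - q.1) []) q.2.2 q.1 := by
        refine primrec_evA.comp (Primrec.pair ?_ (Primrec.pair
          (Primrec.snd.comp Primrec.snd) Primrec.fst))
        refine (Primrec.list_getD []).comp (Primrec.fst.comp Primrec.snd) ?_
        exact Primrec.nat_sub.comp (Primrec.nat_sub.comp (Primrec.list_length.comp
          (Primrec.fst.comp Primrec.snd)) (Primrec.const 1)) Primrec.fst
      have h1 := Primrec.not.comp (Primrec.option_isSome.comp h0)
      have h2 : Primrec fun q : ℕ × List (List Bool) × ℕ =>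
          (evA (q.2.1.getD (q.2.1.length - 1 - q.1) []) q.2.2 q.1).isNone :=
        h1.of_eq fun q => by
          cases evA (q.2.1.getD (q.2.1.length - 1 - q.1) []) q.2.2 q.1 <;> rfl
      exact Primrec.eq.comp h2 (Primrec.const true)
    have h2 : PrimrecRel fun (n : List ℕ) (p : List (List Bool) × ℕ) => ∀ j ∈ n,
        (evA (p.1.getD (p.1.length - 1 - j) []) p.2 j).isNone = true := hR.forall_mem_list
    have h3 : PrimrecPred fun p : List (List Bool) × ℕ => ∀ j ∈ List.range (p.1.length - 1),
        (evA (p.1.getD (p.1.length - 1 - j) []) p.2 j).isNone = true :=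
      PrimrecRel.comp h2 (Primrec.list_range.comp hlen1) Primrec.id
    refine h3.of_eq fun p => ?_
    rw [List.all_eq_true]
  · have h0 : Primrec fun p : List (List Bool) × ℕ => p.1.getD 0 [] :=
      (Primrec.list_getD ([] : List Bool)).comp (Primrec.fst (α := List (List Bool)) (β := ℕ))
        (Primrec.const 0)
    exact primrec_evA.comp (Primrec.pair h0 (Primrec.pair Primrec.snd hlen1))

theorem comp_hst {α : ℕ → List Bool} (hα : Computable α) : Computable (hst α) := by
  have h : Computable fun n : ℕ => (Nat.rec [] (fun k l => α k :: l) n : List (List Bool)) := by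
    refine Computable.nat_rec (f := fun n : ℕ => n) (g := fun _ : ℕ => ([] : List (List Bool)))
      (h := fun (_ : ℕ) (q : ℕ × List (List Bool)) => α q.1 :: q.2)
      Computable.id (Computable.const []) ?_
    exact Computable.list_cons.comp (hα.comp (Computable.fst.comp Computable.snd))
      (Computable.snd.comp Computable.snd)
  refine h.of_eq fun n => ?_
  induction n with
  | zero => rfl
  | succ k ih => exact congrArg (fun l => α k :: l) ih

/-- the system of actions -/
def sys (α : ℕ → List Bool) (hα : Computable α) : Sys where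
  act e s := actL (hst α (s + 1)) e
  lt {e s m} h := by
    obtain ⟨qs, _, _, _, h1, _⟩ := evA_spec (actL_hst.1 h).2
    exact h1
  fr {e s m} h := by
    obtain ⟨qs, _, _, h1, _, _⟩ := evA_spec (actL_hst.1 h).2
    exact h1
  un {e s s' m m'} h h' := by
    rw [actL_hst] at h h'
    rcases lt_trichotomy s s' with hl | hl | hl
    · have := h'.1 s hl
      rw [h.2] at this
      simp at this
    · exact hl
    · have := h.1 s' hl
      rw [h'.2] at this
      simp at this
  comp := primrec_actL.to_comp.comp ((comp_hst hα).comp (Computable.succ.comp Computable.snd))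
    Computable.fst

theorem sys_act {α : ℕ → List Bool} {hα : Computable α} {e s m : ℕ} :
    (sys α hα).act e s = some m ↔
      (∀ j < s, evA (α j) e j = none) ∧ evA (α s) e s = some m := actL_hst

theorem act_of_ev {α : ℕ → List Bool} {hα : Computable α} {e s m : ℕ}
    (h : evA (α s) e s = some m) : ∃ s' m', (sys α hα).act e s' = some m' := by
  classical
  have hex : ∃ s, (evA (α s) e s).isSome := ⟨s, by rw [h]; rfl⟩
  have h1 := Nat.find_spec hex
  obtain ⟨m', hm'⟩ := Option.isSome_iff_exists.1 h1
  refine ⟨Nat.find hex, m', sys_act.2 ⟨fun j hj => ?_, hm'⟩⟩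
  have := Nat.find_min hex hj
  simpa using this

/-- the processes: some attempt for the pair of programs `e` acts -/
def proc (e : ℕ) (H : List (List Bool)) : Bool :=
  (List.range H.length).any fun E => decide (E.unpair.1 = e) && (actL H E).isSome

theorem primrec_proc : Primrec₂ proc := by
  show Primrec fun p : ℕ × List (List Bool) => proc p.1 p.2
  unfold proc
  have hR : PrimrecRel fun (E : ℕ) (p : ℕ × List (List Bool)) =>
      (decide (E.unpair.1 = p.1) && (actL p.2 E).isSome) = true := by
    have h1 : Primrec fun q : ℕ × ℕ × List (List Bool) => decide (q.1.unpair.1 = q.2.1) :=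
      (Primrec.eq.comp (Primrec.fst.comp (Primrec.unpair.comp Primrec.fst))
        (Primrec.fst.comp Primrec.snd)).decide
    have h2 : Primrec fun q : ℕ × ℕ × List (List Bool) => (actL q.2.2 q.1).isSome :=
      Primrec.option_isSome.comp (primrec_actL.comp (Primrec.snd.comp Primrec.snd) Primrec.fst)
    exact Primrec.eq.comp (Primrec.and.comp h1 h2) (Primrec.const true)
  have h2 : PrimrecRel fun (n : List ℕ) (p : ℕ × List (List Bool)) => ∃ E ∈ n,
      (decide (E.unpair.1 = p.1) && (actL p.2 E).isSome) = true := hR.exists_mem_list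
  have h3 : PrimrecPred fun p : ℕ × List (List Bool) => ∃ E ∈ List.range p.2.length,
      (decide (E.unpair.1 = p.1) && (actL p.2 E).isSome) = true :=
    PrimrecRel.comp h2 (Primrec.list_range.comp (Primrec.list_length.comp Primrec.snd)) Primrec.id
  obtain ⟨_, h4⟩ := h3
  refine h4.of_eq fun p => ?_
  rw [Bool.eq_iff_iff, decide_eq_true_iff, List.any_eq_true]

theorem proc_iff {α : ℕ → List Bool} {hα : Computable α} {e s : ℕ} :
    proc e (hst α (s + 1)) = true ↔ ∃ E m, E.unpair.1 = e ∧ (sys α hα).act E s = some m := by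
  unfold proc
  rw [hst_length, List.any_eq_true]
  constructor
  · rintro ⟨E, -, hE⟩
    rw [Bool.and_eq_true, decide_eq_true_iff] at hE
    obtain ⟨m, hm⟩ := Option.isSome_iff_exists.1 hE.2
    exact ⟨E, m, hE.1, hm⟩
  · rintro ⟨E, m, h1, h2⟩
    refine ⟨E, List.mem_range.2 (Nat.lt_succ_of_le ((sys α hα).act_le h2)), ?_⟩
    rw [Bool.and_eq_true, decide_eq_true_iff]
    refine ⟨h1, ?_⟩
    show ((sys α hα).act E s).isSome = true
    rw [h2]
    rfl

/-! ### The two presentations -/

variable {Y : Type} [MetricSpace Y] [CompleteSpace Y] {c : ℕ → Y} {hd : DenseRange c}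
  {hc : CR fun p : ℕ × ℕ => dist (c p.1) (c p.2)}

/-- a requirement does not act at a true stage if it codes a pair of inverse homeomorphisms -/
theorem not_act {S : Sys} {A : ℕ → Bool} {a : List Bool} {F : (S.NA hd hc).Y ≃ₜ (MA hd hc).Y}
    {e : ℕ} (h1 : RnO A (S.NA hd hc) (MA hd hc) F e.unpair.1.unpair.1)
    (h2 : RnO A (MA hd hc) (S.NA hd hc) F.symm e.unpair.1.unpair.2) (s m : ℕ)
    (ha : ∀ j < s, a.getD j false = A j)
    (h : S.act e s = some m) (hev : evA a e s = some m) : False := by
  obtain ⟨qs, hq1, hq2, -, hms, hm⟩ := evA_spec hev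
  set k := s.unpair.1 with hk
  set K := s.unpair.2.unpair.1 with hK
  set L := s.unpair.2.unpair.2.unpair.1 with hL
  have hKs : K ≤ s := by
    rw [hK]
    exact le_trans (Nat.unpair_left_le _) (Nat.unpair_right_le _)
  have hLs : L ≤ s := by
    rw [hL]
    exact le_trans (Nat.unpair_left_le _) (le_trans (Nat.unpair_right_le _)
      (Nat.unpair_right_le _))
  set v : (MA hd hc).Y := aM c (2 * Nat.pair e k + 1) with hv
  have hname : IsName (MA hd hc) (fun _ => 2 * Nat.pair e k + 1) v := by
    intro j
    have : dist ((MA hd hc).c (2 * Nat.pair e k + 1)) v = 0 := dist_self _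
    rw [this]
    positivity
  obtain ⟨q, hqn, hqs, hqt⟩ := h2 v _ hname
  have hpre : pre (fun _ : ℕ => 2 * Nat.pair e k + 1) L =
      List.replicate L (2 * Nat.pair e k + 1) := by
    unfold pre
    rw [List.map_const', List.length_range]
  have hqs2 : qs = pre q (K + 3) := by
    refine valsO_sound q _ _ ?_ qs hq1
    intro i m' h'
    rw [← hpre, dec_pre (fun j hj => ha j (lt_of_lt_of_le hj hLs))] at h'
    exact hqs L i m' h'
  -- everything close to `x` is `x`
  have hclose : ∀ z : (S.NA hd hc).Y, dist z (F.symm v) ≤ 1 / 2 ^ K → z = F.symm v := by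
    intro z hz
    have hlen : ((pre q (K + 3)).tail.take K).length = K := by
      rw [List.length_take, List.length_tail, pre_length]
      omega
    have h3 : dist ((MA hd hc).c (2 * Nat.pair e k + 1)) (F z) ≤ 1 / 2 ^ (Nat.pair e k + 2) := by
      refine commitO h1 z (σ := qs.tail.take K) ?_ (a := a) ?_ hq2
      · intro j hj
        rw [hqs2] at hj ⊢
        rw [hlen] at hj
        have hget : ((pre q (K + 3)).tail.take K).getD j 0 = q (j + 1) := by
          rw [List.getD_eq_getElem?_getD, List.getElem?_take, if_pos hj, List.getElem?_tail,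
            ← List.getD_eq_getElem?_getD, pre_getD q (by omega)]
        rw [hget]
        have h4 := hqn (j + 1)
        have h5 : (1 : ℝ) / 2 ^ K ≤ 1 / 2 ^ (j + 1) := by
          apply one_div_le_one_div_of_le (by positivity)
          exact pow_le_pow_right₀ (by norm_num) (by omega)
        have h6 : (1 : ℝ) / 2 ^ j = 1 / 2 ^ (j + 1) + 1 / 2 ^ (j + 1) := by
          rw [pow_succ]; field_simp; norm_num
        have h7 := dist_triangle ((S.NA hd hc).c (q (j + 1))) (F.symm v) z
        rw [dist_comm (F.symm v) z] at h7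
        linarith
      · intro j hj
        rw [hqs2, hlen] at hj
        exact ha j (lt_of_lt_of_le hj hKs)
    have h4 : F z = v := by
      refine aM_iso (lt_of_le_of_lt (b := 1 / 2 ^ (Nat.pair e k + 2)) ?_ ?_)
      · exact (dist_comm _ _).trans_le h3
      · rw [show Nat.pair e k + 2 = (Nat.pair e k + 1) + 1 by ring]
        have h5 := pow_split (Nat.pair e k + 1)
        have h6 : (0:ℝ) < 1 / 2 ^ (Nat.pair e k + 1 + 1) := by positivity
        linarith
    rw [← h4, F.symm_apply_apply]
  -- the point `m` and the point added near `m`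
  have hmq : m = q (K + 2) := by
    rw [hm, hqs2, pre_getD q (by omega)]
  have hmx : dist (S.aN c m) (F.symm v) ≤ 1 / 2 ^ (K + 2) := by
    rw [hmq]
    exact hqn (K + 2)
  have e1 : (S.aN c m : (S.NA hd hc).Y) = F.symm v :=
    hclose _ (le_trans hmx (pow_anti (by omega)))
  have hzm := S.aN_act_dist (c := c) h
  have e2 : (S.aN c (2 * Nat.pair e s + 1) : (S.NA hd hc).Y) = F.symm v := by
    apply hclose
    rw [← e1]
    show dist (S.aN c (2 * Nat.pair e s + 1)) (S.aN c m) ≤ 1 / 2 ^ K
    rw [hzm]
    exact pow_anti (by omega)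
  rw [show S.aN c (2 * Nat.pair e s + 1) = S.aN c m from e2.trans e1.symm, dist_self] at hzm
  have : (0:ℝ) < 1 / 2 ^ (s + 2) := by positivity
  linarith

/-- the requirement `e` finds a point if `e` codes a pair of inverse homeomorphisms -/
theorem exists_ev {S : Sys} {A : ℕ → Bool} {α : ℕ → List Bool}
    (hlim : ∀ n, ∃ k₀, ∀ k ≥ k₀, (α k).getD n false = A n)
    {F : (S.NA hd hc).Y ≃ₜ (MA hd hc).Y}
    {e : ℕ} (h1 : RnO A (S.NA hd hc) (MA hd hc) F e.unpair.1.unpair.1)
    (h2 : RnO A (MA hd hc) (S.NA hd hc) F.symm e.unpair.1.unpair.2) :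
    ∃ s m, evA (α s) e s = some m := by
  classical
  -- the points which must be avoided
  let T : Set (S.NA hd hc).Y := (fun i => (S.aN c (2 * i) : (S.NA hd hc).Y)) '' Set.Iic e ∪
    {z | ∃ e' ≤ e, z.1 = (c (S.iN e'), S.hN e')}
  have hS : T.Finite := by
    apply Set.Finite.union ((Set.finite_Iic e).image _)
    have h3 : {z : (S.NA hd hc).Y | ∃ e' ≤ e, z.1 = (c (S.iN e'), S.hN e')} ⊆
        Subtype.val ⁻¹' ((fun e' => (c (S.iN e'), S.hN e')) '' Set.Iic e) := by
      rintro z ⟨e', he', hz⟩
      exact ⟨e', he', hz.symm⟩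
    exact (((Set.finite_Iic e).image _).preimage Subtype.val_injective.injOn).subset h3
  have hinj : Function.Injective fun k : ℕ =>
      F.symm (aM c (2 * Nat.pair e k + 1) : (MA hd hc).Y) := by
    intro k k' hk
    have h3 := F.symm.injective hk
    have h4 := aM_inj h3
    exact (Nat.pair_eq_pair.1 h4).2
  obtain ⟨k, hk⟩ : ∃ k, F.symm (aM c (2 * Nat.pair e k + 1) : (MA hd hc).Y) ∉ T := by
    by_contra hcon
    push Not at hcon
    exact Set.infinite_range_of_injective hinj
      (hS.subset (Set.range_subset_iff.2 hcon))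
  set v : (MA hd hc).Y := aM c (2 * Nat.pair e k + 1) with hv
  have hname : IsName (MA hd hc) (fun _ => 2 * Nat.pair e k + 1) v := by
    intro j
    have : dist ((MA hd hc).c (2 * Nat.pair e k + 1)) v = 0 := dist_self _
    rw [this]
    positivity
  obtain ⟨q, hqn, hqs, hqt⟩ := h2 v _ hname
  have hpre : ∀ L, pre (fun _ : ℕ => 2 * Nat.pair e k + 1) L =
      List.replicate L (2 * Nat.pair e k + 1) := by
    intro L
    unfold pre
    rw [List.map_const', List.length_range]
  -- `x` is isolated
  obtain ⟨n₀, hn₀⟩ : ∃ n₀ : ℕ, ∀ z : (S.NA hd hc).Y, dist z (F.symm v) ≤ 1 / 2 ^ n₀ →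
      z = F.symm v := by
    have hopen : IsOpen ({F.symm v} : Set (S.NA hd hc).Y) := by
      have h3 : IsOpen ({v} : Set (MA hd hc).Y) := by
        rw [Metric.isOpen_iff]
        intro z hz
        rw [Set.mem_singleton_iff] at hz
        subst hz
        refine ⟨1 / 2 ^ (Nat.pair e k + 1), by positivity, ?_⟩
        intro z hz
        exact aM_iso hz
      have h4 : ({F.symm v} : Set (S.NA hd hc).Y) = F ⁻¹' {v} := by
        ext z
        simp only [Set.mem_singleton_iff, Set.mem_preimage]
        constructor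
        · rintro rfl; exact F.apply_symm_apply v
        · intro hz
          rw [← hz, F.symm_apply_apply]
      rw [h4]
      exact h3.preimage F.continuous
    obtain ⟨ε, hε, hε2⟩ := Metric.isOpen_iff.1 hopen _ rfl
    obtain ⟨n, hn⟩ := exists_pow_lt_of_lt_one hε (show (1 / 2 : ℝ) < 1 by norm_num)
    refine ⟨n, fun z hz => hε2 ?_⟩
    rw [Metric.mem_ball]
    rw [one_div_pow] at hn
    exact lt_of_le_of_lt hz hn
  -- the name of `x` without the first entry
  have hname' : IsName (S.NA hd hc) (fun n => q (n + 1)) (F.symm v) := fun n =>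
    le_trans (hqn (n + 1)) (pow_anti (Nat.le_succ n))
  obtain ⟨r, hrn, hrs, hrt⟩ := h1 _ _ hname'
  rw [F.apply_symm_apply] at hrn
  obtain ⟨K₀, hK₀⟩ := hrt (Nat.pair e k + 2)
  have hr : r (Nat.pair e k + 2) = 2 * Nat.pair e k + 1 := by
    have h3 := hrn (Nat.pair e k + 2)
    have h4 : (aM c (r (Nat.pair e k + 2)) : (MA hd hc).Y) = aM c (2 * Nat.pair e k + 1) := by
      refine aM_iso (lt_of_le_of_lt (b := 1 / 2 ^ (Nat.pair e k + 2)) h3 ?_)
      rw [show Nat.pair e k + 2 = (Nat.pair e k + 1) + 1 by ring]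
      have h5 := pow_split (Nat.pair e k + 1)
      have h6 : (0:ℝ) < 1 / 2 ^ (Nat.pair e k + 1 + 1) := by positivity
      linarith
    rcases Nat.even_or_odd' (r (Nat.pair e k + 2)) with ⟨j, hj | hj⟩
    · exfalso
      have h5 : (aM c (r (Nat.pair e k + 2))).1.2 = (aM c (2 * Nat.pair e k + 1)).1.2 :=
        congrArg (fun p => p.1.2) h4
      rw [hj, aM_even, aM_odd] at h5
      have : (0:ℝ) < 1 / 2 ^ Nat.pair e k := by positivity
      exact absurd h5 this.ne
    · rw [hj] at h4 ⊢
      rw [aM_inj h4]
  set K := max K₀ n₀ with hK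
  have hm : (S.aN c (q (K + 2)) : (S.NA hd hc).Y) = F.symm v := by
    apply hn₀
    refine le_trans (hqn (K + 2)) (pow_anti ?_)
    have := le_max_right K₀ n₀
    omega
  have hfresh : fresh e (q (K + 2)) = true := by
    rw [fresh_iff]
    rcases cases_index (q (K + 2)) with ⟨i, hi⟩ | ⟨e', s', hi⟩
    · left
      refine ⟨by omega, ?_⟩
      by_contra hcon
      apply hk
      left
      refine ⟨i, by rw [Set.mem_Iic]; omega, ?_⟩
      rw [← hm, hi]
    · right
      have h3 : (q (K + 2)) / 2 = Nat.pair e' s' := by omega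
      refine ⟨by omega, ?_⟩
      rw [h3, Nat.unpair_pair]
      by_contra hcon
      push Not at hcon
      apply hk
      cases ha : S.act e' s' with
      | some m' =>
        right
        refine ⟨e', hcon, ?_⟩
        rw [S.iN_act ha, S.hN_act ha, ← hm, hi]
        rfl
      | none =>
        left
        refine ⟨e', hcon, ?_⟩
        rw [← hm, hi]
        apply Subtype.ext
        show (c (S.nd (2 * e')).1, lh (S.nd (2 * e')).2) =
          (c (S.nd (2 * Nat.pair e' s' + 1)).1, lh (S.nd (2 * Nat.pair e' s' + 1)).2)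
        rw [S.nd_even, S.nd_not_act ha]
  -- how much of the name is needed
  obtain ⟨L₁, hL₁⟩ : ∃ L₁, ∀ L ≥ L₁, ∀ n < K + 3,
      rn e.unpair.1.unpair.2 (pre (orc A fun _ => 2 * Nat.pair e k + 1) L) n = some (q n) := by
    choose T hT using hqt
    refine ⟨(Finset.range (K + 3)).sup T, fun L hL n hn => ?_⟩
    exact hT n L (le_trans (Finset.le_sup (Finset.mem_range.2 hn)) hL)
  set L := max L₁ (q (K + 2) + 1) with hL
  -- the oracle is right on the first `K + L` bits
  obtain ⟨t, ht⟩ : ∃ t, ∀ k ≥ t, ∀ n < K + L, (α k).getD n false = A n := by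
    choose T hT using hlim
    refine ⟨(Finset.range (K + L)).sup T, fun k hk n hn => ?_⟩
    exact hT n k (le_trans (Finset.le_sup (Finset.mem_range.2 hn)) hk)
  have hst : t ≤ Nat.pair k (Nat.pair K (Nat.pair L t)) :=
    le_trans (Nat.right_le_pair _ _) (le_trans (Nat.right_le_pair _ _) (Nat.right_le_pair _ _))
  have hal := ht _ hst
  set a := α (Nat.pair k (Nat.pair K (Nat.pair L t))) with hadef
  have hvals : valsO (rn e.unpair.1.unpair.2
      (dec a (List.replicate L (2 * Nat.pair e k + 1)))) (K + 3) = some (pre q (K + 3)) := by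
    refine valsO_pre q _ _ fun n hn => ?_
    rw [← hpre, dec_pre (fun j hj => hal j (by omega))]
    exact hL₁ L (le_max_left _ _) n hn
  refine ⟨Nat.pair k (Nat.pair K (Nat.pair L t)), q (K + 2), ?_⟩
  rw [← hadef]
  unfold evA
  simp only [Nat.unpair_pair]
  rw [hvals, Option.bind_some, if_pos]
  · rw [pre_getD q (by omega)]
  · refine ⟨?_, ?_, ?_⟩
    · have htail : (pre q (K + 3)).tail.take K = pre (fun n => q (n + 1)) K := by
        apply List.ext_getElem
        · rw [List.length_take, List.length_tail, pre_length, pre_length]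
          omega
        · intro i h3 h4
          simp [pre]
      rw [htail, dec_pre (fun j hj => hal j (by omega)), hK₀ K (le_max_left _ _), hr]
    · rw [pre_getD q (by omega)]
      exact hfresh
    · rw [pre_getD q (by omega)]
      have h3 := Nat.right_le_pair k (Nat.pair K (Nat.pair L t))
      have h4 := Nat.right_le_pair K (Nat.pair L t)
      have h5 := le_max_right L₁ (q (K + 2) + 1)
      have h6 := Nat.left_le_pair L t
      omega

/-- two presentations without a homeomorphism computable with the oracle `A` -/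
theorem caseA {A : ℕ → Bool} (hA : LowCE A) (hd : DenseRange c) (hinj : Function.Injective c)
    (hc : CR fun p : ℕ × ℕ => dist (c p.1) (c p.2)) (hiso : Dense {y : Y | IsOpen ({y} : Set Y)}) :
    ∃ M N : CMS, Nonempty (M.Y ≃ₜ Y) ∧ Nonempty (N.Y ≃ₜ Y) ∧
      ∀ h : M.Y ≃ₜ N.Y, ¬ ∃ f g, RnO A M N h f ∧ RnO A N M h.symm g := by
  have := Infinite.of_injective c hinj
  obtain ⟨α, hα⟩ := hA.apx proc primrec_proc.to_comp
  set S := sys α hα.comp with hS
  refine ⟨S.NA hd hc, MA hd hc, ?_, ?_, ?_⟩
  · exact twin hd hinj hiso S.iN_finite S.hN_nonneg S.hN_lim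
  · refine twin hd hinj hiso (fun n => ?_) (fun e => by positivity) pow_lim
    exact (Set.finite_singleton n).subset fun e he => he
  · rintro F ⟨f, g, hf, hg⟩
    have hrun : ∀ r, RnO A (S.NA hd hc) (MA hd hc) F
        (Nat.pair (Nat.pair f g) r).unpair.1.unpair.1 := by
      intro r; rw [Nat.unpair_pair, Nat.unpair_pair]; exact hf
    have hrun' : ∀ r, RnO A (MA hd hc) (S.NA hd hc) F.symm
        (Nat.pair (Nat.pair f g) r).unpair.1.unpair.2 := by
      intro r; rw [Nat.unpair_pair, Nat.unpair_pair]; exact hg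
    obtain ⟨s, hs1, hs2⟩ := hα.low (Nat.pair f g) (fun K => by
      obtain ⟨s, m, hsm⟩ := exists_ev hα.lim (hrun K) (hrun' K)
      obtain ⟨s', m', h⟩ := act_of_ev (hα := hα.comp) hsm
      refine ⟨s', ?_, proc_iff.2 ⟨_, m', ?_, h⟩⟩
      · exact le_trans (Nat.right_le_pair _ _) ((sys α hα.comp).act_le h)
      · rw [Nat.unpair_pair])
    obtain ⟨E, m, hE, hact⟩ := (proc_iff (hα := hα.comp)).1 hs1
    have hf' : RnO A (S.NA hd hc) (MA hd hc) F E.unpair.1.unpair.1 := by
      rw [hE, Nat.unpair_pair]; exact hf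
    have hg' : RnO A (MA hd hc) (S.NA hd hc) F.symm E.unpair.1.unpair.2 := by
      rw [hE, Nat.unpair_pair]; exact hg
    exact not_act hf' hg' s m hs2 hact (sys_act.1 hact).2

open Nat.Partrec (Code) in
theorem rnO_of_comp {A : ℕ → Bool} {M N : CMS} {h : M.Y → N.Y} (hc : CompMapO A M N h) :
    ∃ c, RnO A M N h c := by
  obtain ⟨φ, hφ, hspec⟩ := hc
  obtain ⟨c, hc⟩ := Code.exists_code.1 hφ
  have key : ∀ (l : List ℕ) (n m : ℕ),
      (m ∈ φ (l, n) ↔ ∃ t, evl t (Encodable.encode c) l n = some m) := by
    intro l n m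
    have h1 : m ∈ c.eval (Encodable.encode (l, n)) ↔ m ∈ φ (l, n) := by
      rw [hc]
      simp
    rw [← h1, Code.evaln_complete]
    unfold evl
    rw [Denumerable.ofNat_encode]
    rfl
  refine ⟨Encodable.encode c, fun x p hp => ?_⟩
  obtain ⟨q, hq, hq2⟩ := hspec x p hp
  have hsound : ∀ L n m, rn (Encodable.encode c) (pre (orc A p) L) n = some m → m = q n := by
    intro L n m hm
    obtain ⟨k, hk, hk2⟩ := srchO_some _ _ _ hm
    rw [pre_length] at hk hk2
    rw [pre_take (orc A p) (by omega)] at hk2
    exact (hq2 n).2 k m ((key _ _ _).2 ⟨_, hk2⟩)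
  refine ⟨q, hq, hsound, fun n => ?_⟩
  obtain ⟨k, hk⟩ := (hq2 n).1
  obtain ⟨t, ht⟩ := (key _ _ _).1 hk
  refine ⟨max k t, fun L hL => ?_⟩
  have h1 : evl L (Encodable.encode c) ((pre (orc A p) L).take k) n = some (q n) := by
    rw [pre_take (orc A p) (le_trans (le_max_left _ _) hL)]
    exact Nat.Partrec.Code.evaln_mono (le_trans (le_max_right _ _) hL) ht
  obtain ⟨v, hv⟩ := srchO_ne (fun u => evl (pre (orc A p) L).length (Encodable.encode c)
    ((pre (orc A p) L).take u) n) ((pre (orc A p) L).length + 1) k (q n)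
    (by rw [pre_length]; exact Nat.lt_succ_of_le (le_trans (le_max_left _ _) hL))
    (by simp only [pre_length]; exact h1)
  have h2 : rn (Encodable.encode c) (pre (orc A p) L) n = some v := hv
  rw [h2, hsound L n v h2]

omit [CompleteSpace Y] in
/-- two presentations without a homeomorphism computable with the oracle `A` -/
theorem caseA2 [CompleteSpace Y] [Infinite Y] (hd : DenseRange c) (hinj : Function.Injective c)
    (hc : CR fun p : ℕ × ℕ => dist (c p.1) (c p.2)) (hiso : Dense {y : Y | IsOpen ({y} : Set Y)})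
    {A : ℕ → Bool} (hA : LowCE A) :
    ∃ M N : CMS, Nonempty (M.Y ≃ₜ Y) ∧ Nonempty (N.Y ≃ₜ Y) ∧
      ∀ h : M.Y ≃ₜ N.Y, ¬ (CompMapO A M N h ∧ CompMapO A N M h.symm) := by
  obtain ⟨M, N, hM, hN, h⟩ := caseA hA hd hinj hc hiso
  refine ⟨M, N, hM, hN, fun F hF => h F ?_⟩
  obtain ⟨f, hf⟩ := rnO_of_comp hF.1
  obtain ⟨g, hg⟩ := rnO_of_comp hF.2
  exact ⟨f, g, hf, hg⟩

end Pool.Agent.H109R3.LA
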