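import Pool.Agent.Helper583.TTAMain

/-!
Dense isolated points: the space determined by an abstract system of actions.
-/

namespace Pool.Agent.H109R3.LA

open Pool.Agent.Helper583.TT
open Filter Topology

/-- a computable system of actions: at stage `s` the requirement `e` adds a point near the point
with index `m` -/
structure Sys where
  act : ℕ → ℕ → Option ℕ
  lt : ∀ {e s m : ℕ}, act e s = some m → m < s
  fr : ∀ {e s m : ℕ}, act e s = some m → fresh e m = true
  un : ∀ {e s s' m m' : ℕ}, act e s = some m → act e s' = some m' → s = s'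
  comp : Computable₂ act

namespace Sys

variable (S : Sys)

/-- the index near which the point with index `m` has been added -/
def par (m : ℕ) : Option ℕ :=
  if m % 2 = 1 then S.act (m / 2).unpair.1 (m / 2).unpair.2 else none

theorem par_lt {m m' : ℕ} (h : S.par m = some m') : m' < m := by
  unfold par at h
  split at h
  · have h1 := S.lt h
    have h2 := Nat.unpair_right_le (m / 2)
    omega
  · simp at h

/-- base point and list of stages of the point with index `m` -/
def nd (m : ℕ) : ℕ × List ℕ :=
  match h : S.par m with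
  | none => (rt m, [])
  | some m' => ((nd m').1, (m / 2).unpair.2 :: (nd m').2)
termination_by m
decreasing_by all_goals exact S.par_lt h

theorem nd_none {m : ℕ} (h : S.par m = none) : S.nd m = (rt m, []) := by
  rw [nd]
  split
  · rfl
  · rename_i h'; rw [h] at h'; simp at h'

theorem nd_some {m m' : ℕ} (h : S.par m = some m') :
    S.nd m = ((S.nd m').1, (m / 2).unpair.2 :: (S.nd m').2) := by
  rw [nd]
  split
  · rename_i h'; rw [h] at h'; simp at h'
  · rename_i h'
    rw [h] at h'
    simp only [Option.some.injEq] at h'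
    subst h'
    rfl

open scoped Classical in
noncomputable def iN (e : ℕ) : ℕ :=
  if h : ∃ s m, S.act e s = some m then (S.nd (2 * Nat.pair e h.choose + 1)).1 else e

open scoped Classical in
noncomputable def hN (e : ℕ) : ℝ :=
  if h : ∃ s m, S.act e s = some m then lh (S.nd (2 * Nat.pair e h.choose + 1)).2 else 0

theorem par_odd (e s : ℕ) : S.par (2 * Nat.pair e s + 1) = S.act e s := by
  unfold par
  have h1 : (2 * Nat.pair e s + 1) % 2 = 1 := by omega
  have h2 : (2 * Nat.pair e s + 1) / 2 = Nat.pair e s := by omega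
  rw [if_pos h1, h2, Nat.unpair_pair]

theorem par_even (i : ℕ) : S.par (2 * i) = none := by
  unfold par
  rw [if_neg (by omega)]

theorem nd_even (i : ℕ) : S.nd (2 * i) = (i, []) := by
  rw [S.nd_none (S.par_even i)]
  unfold rt
  rw [if_pos (by omega)]
  congr 1
  omega

theorem nd_act {e s m : ℕ} (h : S.act e s = some m) :
    S.nd (2 * Nat.pair e s + 1) = ((S.nd m).1, s :: (S.nd m).2) := by
  rw [S.nd_some ((S.par_odd e s).trans h)]
  have h2 : (2 * Nat.pair e s + 1) / 2 = Nat.pair e s := by omega
  rw [h2, Nat.unpair_pair]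

theorem nd_not_act {e s : ℕ} (h : S.act e s = none) :
    S.nd (2 * Nat.pair e s + 1) = (e, []) := by
  rw [S.nd_none ((S.par_odd e s).trans h)]
  unfold rt
  rw [if_neg (by omega)]
  have h2 : (2 * Nat.pair e s + 1) / 2 = Nat.pair e s := by omega
  rw [h2, Nat.unpair_pair]

theorem iN_act {e s m : ℕ} (h : S.act e s = some m) :
    S.iN e = (S.nd (2 * Nat.pair e s + 1)).1 := by
  have h1 : ∃ s m, S.act e s = some m := ⟨s, m, h⟩
  unfold iN
  rw [dif_pos h1]
  obtain ⟨m', hm'⟩ := h1.choose_spec
  rw [S.un hm' h]

theorem hN_act {e s m : ℕ} (h : S.act e s = some m) :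
    S.hN e = lh (S.nd (2 * Nat.pair e s + 1)).2 := by
  have h1 : ∃ s m, S.act e s = some m := ⟨s, m, h⟩
  unfold hN
  rw [dif_pos h1]
  obtain ⟨m', hm'⟩ := h1.choose_spec
  rw [S.un hm' h]

/-- the requirement is at most the stage -/
theorem act_le {e s m : ℕ} (h : S.act e s = some m) : e ≤ s := by
  have h1 := S.lt h
  rcases fresh_iff.1 (S.fr h) with h2 | h2
  · omega
  · have := Nat.unpair_left_le (m / 2)
    omega

/-- base index of an added point is large, its height is small -/
theorem nd_bound {e s m : ℕ} (h : S.act e s = some m) :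
    e < (S.nd (2 * Nat.pair e s + 1)).1 ∧ lh (S.nd (2 * Nat.pair e s + 1)).2 ≤ 1 / 2 ^ e := by
  induction s using Nat.strong_induction_on generalizing e m with
  | _ s ih =>
    rw [S.nd_act h]
    have hle := S.act_le h
    have hpow : (1:ℝ) / 2 ^ (s + 2) ≤ 1 / 2 ^ (e + 1) := by
      apply one_div_le_one_div_of_le (by positivity)
      exact pow_le_pow_right₀ (by norm_num) (by omega)
    have hsum : (1:ℝ) / 2 ^ (e + 1) + 1 / 2 ^ (e + 1) = 1 / 2 ^ e := by
      rw [pow_succ]; field_simp; norm_num
    have hlt := S.lt h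
    rcases fresh_iff.1 (S.fr h) with ⟨h1, h2⟩ | ⟨h1, h2⟩
    · obtain ⟨i, hi⟩ : ∃ i, m = 2 * i := ⟨m / 2, by omega⟩
      subst hi
      rw [S.nd_even, lh_cons, lh_nil]
      refine ⟨by simpa using (by omega : e < i), ?_⟩
      have : (0:ℝ) ≤ 1 / 2 ^ (e + 1) := by positivity
      linarith
    · rcases cases_index m with ⟨i, rfl⟩ | ⟨e', s', rfl⟩
      · omega
      · have h3 : (2 * Nat.pair e' s' + 1) / 2 = Nat.pair e' s' := by omega
        rw [h3, Nat.unpair_pair] at h2
        simp only at h2
        cases ha : S.act e' s' with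
        | none =>
          rw [S.nd_not_act ha, lh_cons, lh_nil]
          refine ⟨h2, ?_⟩
          have : (0:ℝ) ≤ 1 / 2 ^ (e + 1) := by positivity
          linarith
        | some m' =>
          have hs' : s' < s := by
            have := Nat.right_le_pair e' s'
            omega
          obtain ⟨h4, h5⟩ := ih s' hs' ha
          rw [lh_cons]
          refine ⟨lt_trans h2 h4, ?_⟩
          have h6 : (1:ℝ) / 2 ^ e' ≤ 1 / 2 ^ (e + 1) := by
            apply one_div_le_one_div_of_le (by positivity)
            exact pow_le_pow_right₀ (by norm_num) (by omega)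
          linarith

theorem iN_gt (e : ℕ) : e ≤ S.iN e := by
  by_cases h : ∃ s m, S.act e s = some m
  · obtain ⟨s, m, hm⟩ := h
    rw [S.iN_act hm]
    exact (S.nd_bound hm).1.le
  · unfold iN
    rw [dif_neg h]

theorem iN_finite (n : ℕ) : {e | S.iN e = n}.Finite := by
  refine (Set.finite_Iic n).subset fun e he => ?_
  have h1 := S.iN_gt e
  rw [Set.mem_setOf_eq] at he
  rw [he] at h1
  exact h1

theorem hN_nonneg (e : ℕ) : 0 ≤ S.hN e := by
  unfold hN
  split
  · exact lh_nonneg _
  · exact le_rfl

theorem hN_le (e : ℕ) : S.hN e ≤ 1 / 2 ^ e := by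
  by_cases h : ∃ s m, S.act e s = some m
  · obtain ⟨s, m, hm⟩ := h
    rw [S.hN_act hm]
    exact (S.nd_bound hm).2
  · unfold hN
    rw [dif_neg h]
    positivity

theorem hN_lim : Filter.Tendsto S.hN Filter.atTop (nhds 0) := by
  refine squeeze_zero S.hN_nonneg S.hN_le ?_
  have := tendsto_pow_atTop_nhds_zero_of_lt_one (r := (1:ℝ) / 2) (by norm_num) (by norm_num)
  refine this.congr fun n => ?_
  rw [div_pow, one_pow]

theorem comp_par : Computable S.par := by
  unfold par
  have hc : Computable fun m : ℕ => decide (m % 2 = 1) :=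
    ((Primrec.eq.comp (Primrec.nat_mod.comp Primrec.id (Primrec.const 2))
      (Primrec.const 1)).decide).to_comp
  have h := (Primrec.unpair.comp (Primrec.nat_div.comp Primrec.id (Primrec.const 2))).to_comp
  have h1 : Computable fun m : ℕ => S.act (m / 2).unpair.1 (m / 2).unpair.2 :=
    S.comp.comp (Computable.fst.comp h) (Computable.snd.comp h)
  refine (Computable.cond hc h1 (Computable.const none)).of_eq fun m => ?_
  by_cases hm : m % 2 = 1 <;> simp [hm]

theorem comp_nd : Computable S.nd := by
  have h : Computable₂ fun (_ : Unit) (m : ℕ) => S.nd m := by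
    refine Computable.nat_strong_rec (fun (_ : Unit) (m : ℕ) => S.nd m)
      (g := fun (_ : Unit) (IH : List (ℕ × List ℕ)) =>
        Option.casesOn (S.par IH.length) (some (rt IH.length, []))
          (fun m' => (IH[m']?).map fun p => (p.1, (IH.length / 2).unpair.2 :: p.2))) ?_ ?_
    · refine Computable.option_casesOn (α := Unit × List (ℕ × List ℕ)) ?_ ?_ ?_
      · exact S.comp_par.comp (Computable.list_length.comp Computable.snd)
      · exact (Primrec.option_some.comp (Primrec.pair (primrec_rt.comp
          (Primrec.list_length.comp Primrec.snd)) (Primrec.const []))).to_comp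
      · refine Computable.option_map (α := (Unit × List (ℕ × List ℕ)) × ℕ) ?_ ?_
        · exact (Primrec.list_getElem?.comp (Primrec.snd.comp Primrec.fst) Primrec.snd).to_comp
        · refine (Primrec.pair (Primrec.fst.comp Primrec.snd) ?_).to_comp
          refine Primrec.list_cons.comp ?_ (Primrec.snd.comp Primrec.snd)
          exact Primrec.snd.comp (Primrec.unpair.comp (Primrec.nat_div.comp
            (Primrec.list_length.comp (Primrec.snd.comp (Primrec.fst.comp Primrec.fst)))
            (Primrec.const 2)))
    · intro _ m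
      have hl : ((List.range m).map fun m => S.nd m).length = m := by simp
      simp only [hl]
      cases hp : S.par m with
      | none => simp only [S.nd_none hp]
      | some m' =>
        have hlt := S.par_lt hp
        simp only [S.nd_some hp]
        rw [List.getElem?_map, List.getElem?_range hlt]
        rfl
  exact h.comp (Computable.const ()) Computable.id

variable {Y : Type} [MetricSpace Y] (c : ℕ → Y)

/-- the points of the space `N` -/
noncomputable def aN (m : ℕ) : ↥(TS c S.iN S.hN) :=
  ⟨(c (S.nd m).1, lh (S.nd m).2), by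
    rcases cases_index m with ⟨i, rfl⟩ | ⟨e, s, rfl⟩
    · left; rw [S.nd_even, lh_nil]
    · cases h : S.act e s with
      | none => left; rw [S.nd_not_act h, lh_nil]
      | some m' => right; exact ⟨e, by rw [S.iN_act h, S.hN_act h]⟩⟩

variable {c}

theorem aN_dense (hd : DenseRange c) : DenseRange (S.aN c) := by
  apply dense_of hd
  · intro n
    refine ⟨2 * n, ?_⟩
    simp only [aN, S.nd_even, lh_nil]
  · intro e
    by_cases h : ∃ s m, S.act e s = some m
    · obtain ⟨s, m, hm⟩ := h
      refine ⟨2 * Nat.pair e s + 1, ?_⟩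
      rw [S.iN_act hm, S.hN_act hm]
      rfl
    · refine ⟨2 * e, ?_⟩
      have h1 : S.iN e = e := by unfold iN; rw [dif_neg h]
      have h2 : S.hN e = 0 := by unfold hN; rw [dif_neg h]
      rw [h1, h2]
      simp only [aN, S.nd_even, lh_nil]

theorem cr_aN (hc : CR fun p : ℕ × ℕ => dist (c p.1) (c p.2)) :
    CR fun p : ℕ × ℕ => dist (S.aN c p.1) (S.aN c p.2) := by
  have h1 : Computable fun m => (S.nd m).1 := Computable.fst.comp S.comp_nd
  have h2 : Computable fun m => (S.nd m).2 := Computable.snd.comp S.comp_nd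
  have h3 := hc.comp ((h1.comp Computable.fst).pair (h1.comp Computable.snd) :
    Computable fun p : ℕ × ℕ => ((S.nd p.1).1, (S.nd p.2).1))
  have h4 := (cr_lh (h2.comp (Computable.fst (α := ℕ) (β := ℕ)))).absdiff
    (cr_lh (h2.comp (Computable.snd (α := ℕ) (β := ℕ))))
  exact (h3.max h4).congr fun p => rfl

/-- the presentation `N` -/
noncomputable def NA [CompleteSpace Y] (hd : DenseRange c)
    (hc : CR fun p : ℕ × ℕ => dist (c p.1) (c p.2)) : CMS :=
  haveI : CompleteSpace ↥(TS c S.iN S.hN) := (ts_closed S.hN_lim).completeSpace_coe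
  { Y := ↥(TS c S.iN S.hN)
    c := S.aN c
    dense := S.aN_dense hd
    comp := comp_of_cr (S.cr_aN hc) }

omit [MetricSpace Y] in
/-- the point added by the requirement `e` -/
theorem aN_act {e s m : ℕ} (h : S.act e s = some m) :
    (S.aN c (2 * Nat.pair e s + 1)).1 = ((S.aN c m).1.1, 1 / 2 ^ (s + 2) + (S.aN c m).1.2) := by
  simp only [aN]
  rw [S.nd_act h, lh_cons]

theorem aN_act_dist {e s m : ℕ} (h : S.act e s = some m) :
    dist (S.aN c (2 * Nat.pair e s + 1)) (S.aN c m) = 1 / 2 ^ (s + 2) := by
  rw [Subtype.dist_eq, S.aN_act h, Prod.dist_eq]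
  have h1 : (0:ℝ) ≤ 1 / 2 ^ (s + 2) := by positivity
  rw [dist_self, Real.dist_eq, add_sub_cancel_right, abs_of_nonneg h1, max_eq_right h1]

end Sys

end Pool.Agent.H109R3.LA
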